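import Pool.Agent.Helper45.TY.Count

/-!
Words cut into blocks of length `l`: membership of every block in a set `L b` is tested by a
one-tape machine with `q + 3` states in `2 n l + 2 n + 1` steps, if the tape alphabet is not
restricted: every cell passes the letters received so far, one by one, to the next cell of its
block.
-/

set_option autoImplicit false

open Finset Filter

namespace Pool.Agent.Helper45.TY

namespace Blocks

/-- symbols -/
inductive Sym (q : ℕ)
  | cell (x : ℕ) (own l : List (Fin q))
  | full (l : List (Fin q))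
  | stop

/-- states: `inl a` carries the letter `a` to the next cell; `inr 0` gives the letters of the cell
away, `inr 1` takes over a new cell, `inr 2` accepts. -/
abbrev St (q : ℕ) := Fin q ⊕ Fin 3

/-- the cell `x` is the last one of its block -/
def Last (n l₀ x : ℕ) : Prop := (x + 1) % l₀ = 0 ∨ x + 1 = n

/-- the steps -/
inductive BStep {q : ℕ} (n l₀ : ℕ) (L : ℕ → Set (List (Fin q))) :
    St q → Sym q → St q → Sym q → Dir → Prop
  | give_cons (a : Fin q) (l : List (Fin q)) :
      BStep n l₀ L (.inr 0) (.full (a :: l)) (.inl a) (.full l) .right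
  | give_nil : BStep n l₀ L (.inr 0) (.full []) (.inr 1) (.full []) .right
  | put (a : Fin q) (x : ℕ) (own l : List (Fin q)) :
      BStep n l₀ L (.inl a) (.cell x own l) (.inr 0) (.cell x own (l ++ [a])) .left
  | take (x : ℕ) (own l : List (Fin q)) (h : ¬ Last n l₀ x) :
      BStep n l₀ L (.inr 1) (.cell x own l) (.inr 0) (.full (l ++ own)) .stay
  | check (x : ℕ) (own l : List (Fin q)) (h : Last n l₀ x) (hl : l ++ own ∈ L (x / l₀)) :
      BStep n l₀ L (.inr 1) (.cell x own l) (.inr 1) (.full []) .right
  | stop : BStep n l₀ L (.inr 1) .stop (.inr 2) .stop .stay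

/-- the machine -/
def mach {q : ℕ} (n l₀ : ℕ) (L : ℕ → Set (List (Fin q))) : Machine (St q) (Sym q) where
  step := BStep n l₀ L
  start := .inr 1
  accept := fun p => p = .inr 2

/-- the coding of the input -/
def enc {q : ℕ} (z : ℤ) (x : Option (Fin q)) : Sym q :=
  match x with
  | some a => .cell z.toNat [a] []
  | none => .stop

variable {n q l₀ : ℕ}

/-- the letter with number `x`, as a list -/
def wv (w : Fin n → Fin q) (x : ℕ) : List (Fin q) := if h : x < n then [w ⟨x, h⟩] else []

/-- the contents of the cell `x` which has received the list `l` -/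
def cur (w : Fin n → Fin q) (x : ℕ) (l : List (Fin q)) : Sym q :=
  if x < n then .cell x (wv w x) l else .stop

theorem init_tape (L : ℕ → Set (List (Fin q))) (w : Fin n → Fin q) (x : ℕ) :
    ((mach n l₀ L).init enc w).tape (x : ℤ) = cur w x [] := by
  simp only [Machine.init, inputTape, cur, enc, wv]
  by_cases h : x < n
  · have h' : 0 ≤ (x : ℤ) ∧ (x : ℤ) < n := by omega
    simp [h, h']
  · have h' : ¬ (0 ≤ (x : ℤ) ∧ (x : ℤ) < n) := by omega
    simp [h, h']

instance (n l₀ x : ℕ) : Decidable (Last n l₀ x) := by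
  unfold Last
  infer_instance

/-- the letters received by the cell `x` from its left neighbours in its block -/
def rcv (l₀ : ℕ) (w : Fin n → Fin q) : ℕ → List (Fin q)
  | 0 => []
  | x + 1 => if Last n l₀ x then [] else rcv l₀ w x ++ wv w x

/-- the letters of the block of `x` up to `x` -/
def seg (l₀ : ℕ) (w : Fin n → Fin q) (x : ℕ) : List (Fin q) := rcv l₀ w x ++ wv w x

theorem rcv_eq (hl : 1 ≤ l₀) (w : Fin n → Fin q) (x : ℕ) (hx : x < n) :
    rcv l₀ w x = ((List.ofFn w).take x).drop (x / l₀ * l₀) := by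
  induction x with
  | zero => simp [rcv]
  | succ x ih =>
    have ih' := ih (by omega)
    rw [rcv]
    by_cases h : (x + 1) % l₀ = 0
    · rw [if_pos (show Last n l₀ x from Or.inl h)]
      have e : (x + 1) / l₀ * l₀ = x + 1 := by
        have := Nat.div_add_mod (x + 1) l₀
        rw [h, add_zero, mul_comm] at this
        exact this
      rw [e]
      symm
      rw [List.drop_eq_nil_iff]
      simp
    · have hn : ¬ Last n l₀ x := by
        rintro (h1 | h1)
        · exact h h1
        · omega
      rw [if_neg hn, ih']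
      have e : (x + 1) / l₀ = x / l₀ := by
        rw [Nat.succ_div, if_neg (fun hd => h (Nat.mod_eq_zero_of_dvd hd)), add_zero]
      rw [e]
      have hlen : x / l₀ * l₀ ≤ ((List.ofFn w).take x).length := by
        have := Nat.div_mul_le_self x l₀
        simp
        omega
      have hw : wv w x = [w ⟨x, by omega⟩] := by
        unfold wv
        rw [dif_pos (by omega)]
      have ht : (List.ofFn w).take (x + 1) = (List.ofFn w).take x ++ [w ⟨x, by omega⟩] := by
        rw [List.take_succ]
        congr 1
        simp [show x < n by omega]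
      rw [hw, ht, List.drop_append_of_le_length hlen]

theorem seg_eq (hl : 1 ≤ l₀) (w : Fin n → Fin q) (x : ℕ) (hx : x < n) :
    seg l₀ w x = ((List.ofFn w).take (x + 1)).drop (x / l₀ * l₀) := by
  have hlen : x / l₀ * l₀ ≤ ((List.ofFn w).take x).length := by
    have := Nat.div_mul_le_self x l₀
    simp
    omega
  have hw : wv w x = [w ⟨x, by omega⟩] := by
    unfold wv
    rw [dif_pos (by omega)]
  have ht : (List.ofFn w).take (x + 1) = (List.ofFn w).take x ++ [w ⟨x, by omega⟩] := by
    rw [List.take_succ]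
    congr 1
    simp [show x < n by omega]
  rw [seg, rcv_eq hl w x hx, hw, ht, List.drop_append_of_le_length hlen]

theorem seg_length (hl : 1 ≤ l₀) (w : Fin n → Fin q) (x : ℕ) (hx : x < n) :
    (seg l₀ w x).length ≤ l₀ := by
  rw [seg_eq hl w x hx]
  simp only [List.length_drop, List.length_take, List.length_ofFn]
  have h1 := Nat.div_add_mod x l₀
  have h2 := Nat.mod_lt x (show l₀ > 0 by omega)
  rw [mul_comm] at h1
  omega

theorem seg_last (hl : 1 ≤ l₀) (w : Fin n → Fin q) (x : ℕ) (hx : x < n) (h : Last n l₀ x) :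
    seg l₀ w x = ((List.ofFn w).drop (x / l₀ * l₀)).take l₀ := by
  rw [seg_eq hl w x hx, List.drop_take]
  have h1 := Nat.div_add_mod x l₀
  have h2 := Nat.mod_lt x (show l₀ > 0 by omega)
  rw [mul_comm] at h1
  rcases h with h | h
  · congr 1
    have h3 : x % l₀ = l₀ - 1 := by
      rw [Nat.add_mod] at h
      by_contra hne
      rcases Nat.lt_or_ge 1 l₀ with h4 | h4
      · rw [Nat.mod_eq_of_lt h4, Nat.mod_eq_of_lt (by omega)] at h
        omega
      · have : l₀ = 1 := by omega
        subst this
        omega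
    omega
  · rw [List.take_of_length_le (by simp; omega), List.take_of_length_le (by simp; omega)]

/-- the condition on the blocks finished before `z` -/
def Ok (l₀ : ℕ) (L : ℕ → Set (List (Fin q))) (w : Fin n → Fin q) (z : ℕ) : Prop :=
  ∀ x < z, Last n l₀ x → seg l₀ w x ∈ L (x / l₀)

theorem ok_iff (hl : 1 ≤ l₀) (L : ℕ → Set (List (Fin q))) (w : Fin n → Fin q) :
    Ok l₀ L w n ↔ ∀ b, b * l₀ < n → ((List.ofFn w).drop (b * l₀)).take l₀ ∈ L b := by
  constructor
  · intro h b hb
    obtain ⟨x, hx, hlast, hdiv⟩ : ∃ x < n, Last n l₀ x ∧ x / l₀ = b := by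
      rcases Nat.lt_or_ge (b * l₀ + l₀ - 1) n with h1 | h1
      · refine ⟨b * l₀ + l₀ - 1, h1, Or.inl ?_, ?_⟩
        · have : b * l₀ + l₀ - 1 + 1 = (b + 1) * l₀ := by
            rw [add_mul, one_mul]
            omega
          rw [this]
          exact Nat.mul_mod_left _ _
        · have : b * l₀ + l₀ - 1 = (l₀ - 1) + l₀ * b := by
            rw [mul_comm l₀ b]
            omega
          rw [this, Nat.add_mul_div_left _ _ (by omega), Nat.div_eq_of_lt (by omega), zero_add]
      · refine ⟨n - 1, by omega, Or.inr (by omega), ?_⟩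
        have : n - 1 = (n - 1 - b * l₀) + l₀ * b := by
          rw [mul_comm l₀ b]
          omega
        rw [this, Nat.add_mul_div_left _ _ (by omega), Nat.div_eq_of_lt (by omega), zero_add]
    have := h x hx hlast
    rw [seg_last hl w x hx hlast, hdiv] at this
    exact this
  · intro h x hx hlast
    rw [seg_last hl w x hx hlast]
    refine h _ ?_
    have := Nat.div_mul_le_self x l₀
    omega

/-- the machine takes over the cell `z` -/
def PA (l₀ : ℕ) (w : Fin n → Fin q) (z : ℕ) (c : Config (St q) (Sym q)) : Prop :=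
  z ≤ n ∧ c.state = .inr 1 ∧ c.head = z ∧ c.tape (z : ℤ) = cur w z (rcv l₀ w z) ∧
    ∀ x : ℕ, z < x → c.tape (x : ℤ) = cur w x []

/-- the machine gives the letters of the cell `z` away; `l1` has been given, `l2` is left -/
def PB (w : Fin n → Fin q) (z : ℕ) (l1 l2 : List (Fin q))
    (c : Config (St q) (Sym q)) : Prop :=
  z + 1 < n ∧ c.state = .inr 0 ∧ c.head = z ∧ c.tape (z : ℤ) = .full l2 ∧
    c.tape ((z + 1 : ℕ) : ℤ) = cur w (z + 1) l1 ∧
    ∀ x : ℕ, z + 1 < x → c.tape (x : ℤ) = cur w x []

/-- the machine carries the letter `a` -/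
def PC (w : Fin n → Fin q) (z : ℕ) (l1 : List (Fin q)) (a : Fin q) (l2 : List (Fin q))
    (c : Config (St q) (Sym q)) : Prop :=
  z + 1 < n ∧ c.state = .inl a ∧ c.head = ((z + 1 : ℕ) : ℤ) ∧ c.tape (z : ℤ) = .full l2 ∧
    c.tape ((z + 1 : ℕ) : ℤ) = cur w (z + 1) l1 ∧
    ∀ x : ℕ, z + 1 < x → c.tape (x : ℤ) = cur w x []

/-- the invariant -/
def Inv (l₀ : ℕ) (L : ℕ → Set (List (Fin q))) (w : Fin n → Fin q)
    (c : Config (St q) (Sym q)) : Prop :=
  (∃ z, Ok l₀ L w z ∧ PA l₀ w z c) ∨
  (∃ z l1 l2, Ok l₀ L w z ∧ ¬ Last n l₀ z ∧ l1 ++ l2 = seg l₀ w z ∧ PB w z l1 l2 c) ∨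
  (∃ z l1 a l2, Ok l₀ L w z ∧ ¬ Last n l₀ z ∧ l1 ++ a :: l2 = seg l₀ w z ∧ PC w z l1 a l2 c) ∨
  (c.state = .inr 2 ∧ Ok l₀ L w n)

theorem rcv_succ {w : Fin n → Fin q} {z : ℕ} (h : ¬ Last n l₀ z) :
    rcv l₀ w (z + 1) = seg l₀ w z := by
  rw [rcv, if_neg h, seg]

theorem rcv_succ_last {w : Fin n → Fin q} {z : ℕ} (h : Last n l₀ z) :
    rcv l₀ w (z + 1) = [] := by
  rw [rcv, if_pos h]

theorem ok_succ {L : ℕ → Set (List (Fin q))} {w : Fin n → Fin q} {z : ℕ} (h : Ok l₀ L w z)
    (h1 : Last n l₀ z → seg l₀ w z ∈ L (z / l₀)) : Ok l₀ L w (z + 1) := by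
  intro x hx hl
  rcases Nat.lt_succ_iff_lt_or_eq.1 hx with h2 | h2
  · exact h x h2 hl
  · subst h2
    exact h1 hl

theorem inv_next {L : ℕ → Set (List (Fin q))} {w : Fin n → Fin q} {c c' : Config (St q) (Sym q)}
    (hc : Inv l₀ L w c) (h : (mach n l₀ L).Next c c') : Inv l₀ L w c' := by
  obtain ⟨d, hstep, hhead, htape⟩ := h
  change BStep n l₀ L c.state (c.tape c.head) c'.state (c'.tape c.head) d at hstep
  rcases hc with ⟨z, hok, hz, hs, hh, ht, hr⟩ | ⟨z, l1, l2, hok, hl, he, hz, hs, hh, ht, ht', hr⟩ |
    ⟨z, l1, a, l2, hok, hl, he, hz, hs, hh, ht, ht', hr⟩ | ⟨hs, hL⟩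
  · -- take over a cell
    rw [hs, hh, ht] at hstep
    rcases Nat.lt_or_ge z n with hzn | hzn
    · rw [cur, if_pos hzn] at hstep
      generalize hs' : c'.state = s' at hstep
      generalize hg' : c'.tape (z : ℤ) = g' at hstep
      cases hstep with
      | take _ _ _ hnl =>
        have hz1 : z + 1 < n := by
          by_contra hcon
          exact hnl (Or.inr (by omega))
        right; left
        refine ⟨z, [], seg l₀ w z, hok, hnl, by simp, hz1, hs', ?_, ?_, ?_, ?_⟩
        · rw [hhead, hh]
          simp [Dir.shift]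
        · rw [hg']
          rfl
        · rw [htape _ (by rw [hh]; push_cast; omega), hr (z + 1) (by omega)]
        · intro x hx
          rw [htape _ (by rw [hh]; omega), hr x (by omega)]
      | check _ _ _ hla hmem =>
        left
        refine ⟨z + 1, ok_succ hok (fun _ => hmem), by omega, hs', ?_, ?_, ?_⟩
        · rw [hhead, hh]
          simp [Dir.shift]
        · rw [htape _ (by rw [hh]; push_cast; omega), hr (z + 1) (by omega), rcv_succ_last hla]
        · intro x hx
          rw [htape _ (by rw [hh]; omega), hr x (by omega)]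
    · rw [cur, if_neg (by omega)] at hstep
      generalize hs' : c'.state = s' at hstep
      generalize hg' : c'.tape (z : ℤ) = g' at hstep
      cases hstep
      right; right; right
      have : z = n := by omega
      rw [this] at hok
      exact ⟨hs', hok⟩
  · -- give
    rw [hs, hh, ht] at hstep
    generalize hs' : c'.state = s' at hstep
    generalize hg' : c'.tape (z : ℤ) = g' at hstep
    cases hstep with
    | give_cons a l =>
      right; right; left
      refine ⟨z, l1, a, l, hok, hl, he, hz, hs', ?_, hg', ?_, ?_⟩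
      · rw [hhead, hh]
        simp [Dir.shift]
      · rw [htape _ (by rw [hh]; push_cast; omega), ht']
      · intro x hx
        rw [htape _ (by rw [hh]; omega), hr x (by omega)]
    | give_nil =>
      left
      refine ⟨z + 1, ok_succ hok (fun h => absurd h hl), by omega, hs', ?_, ?_, ?_⟩
      · rw [hhead, hh]
        simp [Dir.shift]
      · rw [htape _ (by rw [hh]; push_cast; omega), ht', rcv_succ hl, ← he, List.append_nil]
      · intro x hx
        rw [htape _ (by rw [hh]; omega), hr x (by omega)]
  · -- carry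
    rw [hs, hh, ht', cur, if_pos hz] at hstep
    generalize hs' : c'.state = s' at hstep
    generalize hg' : c'.tape ((z + 1 : ℕ) : ℤ) = g' at hstep
    cases hstep
    right; left
    refine ⟨z, l1 ++ [a], l2, hok, hl, by rw [← he]; simp, hz, hs', ?_, ?_, ?_, ?_⟩
    · rw [hhead, hh]
      simp [Dir.shift]
    · rw [htape _ (by rw [hh]; push_cast; omega), ht]
    · rw [hg', cur, if_pos hz]
    · intro x hx
      rw [htape _ (by rw [hh]; push_cast; omega), hr x (by omega)]
  · -- yes
    rw [hs] at hstep
    generalize c.tape c.head = g at hstep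
    generalize c'.state = s' at hstep
    generalize c'.tape c.head = g' at hstep
    cases hstep

theorem inv_reach {L : ℕ → Set (List (Fin q))} {w : Fin n → Fin q} {t : ℕ}
    {c c' : Config (St q) (Sym q)} (h : (mach n l₀ L).Reach t c c') (hc : Inv l₀ L w c) :
    Inv l₀ L w c' := by
  induction h with
  | refl c => exact hc
  | cons h1 _ ih => exact ih (inv_next hc h1)

theorem init_PA (L : ℕ → Set (List (Fin q))) (w : Fin n → Fin q) :
    PA l₀ w 0 ((mach n l₀ L).init enc w) :=
  ⟨Nat.zero_le _, rfl, rfl, init_tape L w 0, fun x _ => init_tape L w x⟩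

theorem sound {L : ℕ → Set (List (Fin q))} {w : Fin n → Fin q}
    (h : (mach n l₀ L).Accepts ((mach n l₀ L).init enc w)) : Ok l₀ L w n := by
  obtain ⟨t, c', hr, hacc⟩ := h
  have hinv : Inv l₀ L w ((mach n l₀ L).init enc w) :=
    Or.inl ⟨0, fun x hx => absurd hx (Nat.not_lt_zero _), init_PA L w⟩
  change c'.state = .inr 2 at hacc
  rcases inv_reach hr hinv with ⟨z, _, _, hs, _⟩ | ⟨z, l1, l2, _, _, _, _, hs, _⟩ |
    ⟨z, l1, a, l2, _, _, _, _, hs, _⟩ | ⟨_, hL⟩
  · rw [hacc] at hs
    simp at hs
  · rw [hacc] at hs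
    simp at hs
  · rw [hacc] at hs
    simp at hs
  · exact hL

theorem reach_trans {Q Γ : Type} {M : Machine Q Γ} {t t' : ℕ} {a b c : Config Q Γ}
    (h : M.Reach t a b) (h' : M.Reach t' b c) : M.Reach (t + t') a c := by
  induction h with
  | refl c => simpa using h'
  | @cons t a a' b h1 _ ih =>
    have := Machine.Reach.cons h1 (ih h')
    rwa [show t + 1 + t' = t + t' + 1 by omega]

/-- the configuration after a step which writes `g'` -/
theorem next_update {L : ℕ → Set (List (Fin q))} {c : Config (St q) (Sym q)} {p' : St q}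
    {g' : Sym q} {d : Dir} (hstep : BStep n l₀ L c.state (c.tape c.head) p' g' d) :
    (mach n l₀ L).Next c ⟨p', c.head + d.shift, Function.update c.tape c.head g'⟩ :=
  ⟨d, by simpa [mach] using hstep, rfl, fun z hz => by simp [hz]⟩

/-- giving the letters of a cell away -/
theorem run_give (L : ℕ → Set (List (Fin q))) (w : Fin n → Fin q) {z : ℕ}
    (hl : ¬ Last n l₀ z) (l2 : List (Fin q)) :
    ∀ (l1 : List (Fin q)) (c : Config (St q) (Sym q)), l1 ++ l2 = seg l₀ w z → PB w z l1 l2 c →
      ∃ c', (mach n l₀ L).Reach (2 * l2.length + 1) c c' ∧ PA l₀ w (z + 1) c' := by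
  induction l2 with
  | nil =>
    intro l1 c he ⟨hz, hs, hh, ht, ht', hr⟩
    refine ⟨_, .cons (next_update (d := .right) (p' := .inr 1) (g' := .full []) ?_) (.refl _),
      by omega, rfl, ?_, ?_, ?_⟩
    · rw [hs, hh, ht]
      exact .give_nil
    · simp [hh, Dir.shift]
    · show Function.update c.tape c.head _ _ = _
      rw [Function.update_of_ne (by rw [hh]; push_cast; omega), ht', rcv_succ hl, ← he,
        List.append_nil]
    · intro x hx
      show Function.update c.tape c.head _ _ = _
      rw [Function.update_of_ne (by rw [hh]; omega), hr x (by omega)]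
  | cons a l2 ih =>
    intro l1 c he ⟨hz, hs, hh, ht, ht', hr⟩
    have h1 : (mach n l₀ L).Next c ⟨.inl a, c.head + Dir.shift .right,
        Function.update c.tape c.head (.full l2)⟩ := by
      refine next_update ?_
      rw [hs, hh, ht]
      exact .give_cons a l2
    set c1 : Config (St q) (Sym q) := ⟨.inl a, c.head + Dir.shift .right,
        Function.update c.tape c.head (.full l2)⟩ with hc1
    have hh1 : c1.head = ((z + 1 : ℕ) : ℤ) := by
      simp [hc1, hh, Dir.shift]
    have htz1 : c1.tape ((z + 1 : ℕ) : ℤ) = cur w (z + 1) l1 := by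
      show Function.update c.tape c.head _ _ = _
      rw [Function.update_of_ne (by rw [hh]; push_cast; omega), ht']
    have h2 : (mach n l₀ L).Next c1 ⟨.inr 0, c1.head + Dir.shift .left,
        Function.update c1.tape c1.head (cur w (z + 1) (l1 ++ [a]))⟩ := by
      refine next_update ?_
      rw [hh1, htz1, cur, if_pos hz, cur, if_pos hz]
      exact .put a _ _ _
    obtain ⟨c', hreach, hPA⟩ := ih (l1 ++ [a]) ⟨.inr 0, c1.head + Dir.shift .left,
        Function.update c1.tape c1.head (cur w (z + 1) (l1 ++ [a]))⟩ (by rw [← he]; simp)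
        ⟨hz, rfl, by simp [hh1, Dir.shift], by
          show Function.update c1.tape c1.head _ _ = _
          rw [Function.update_of_ne (by rw [hh1]; push_cast; omega)]
          show Function.update c.tape c.head _ _ = _
          rw [hh, Function.update_self], by
          show Function.update c1.tape c1.head _ _ = _
          rw [hh1, Function.update_self], by
          intro x hx
          show Function.update c1.tape c1.head _ _ = _
          rw [Function.update_of_ne (by rw [hh1]; push_cast; omega)]
          show Function.update c.tape c.head _ _ = _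
          rw [Function.update_of_ne (by rw [hh]; omega), hr x (by omega)]⟩
    refine ⟨c', ?_, hPA⟩
    have := Machine.Reach.cons h1 (Machine.Reach.cons h2 hreach)
    rwa [show 2 * l2.length + 1 + 1 + 1 = 2 * (a :: l2).length + 1 by
      simp; ring] at this

/-- from one cell to the next one -/
theorem run_cell (hl₀ : 1 ≤ l₀) (L : ℕ → Set (List (Fin q))) (w : Fin n → Fin q)
    (hok : Ok l₀ L w n) {z : ℕ} (hz : z < n) {c : Config (St q) (Sym q)} (hc : PA l₀ w z c) :
    ∃ t ≤ 2 * l₀ + 2, ∃ c', (mach n l₀ L).Reach t c c' ∧ PA l₀ w (z + 1) c' := by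
  obtain ⟨_, hs, hh, ht, hr⟩ := hc
  by_cases hl : Last n l₀ z
  · refine ⟨0 + 1, by omega, _, .cons (next_update (d := .right) (p' := .inr 1)
      (g' := .full []) ?_) (.refl _), by omega, rfl, ?_, ?_, ?_⟩
    · rw [hs, hh, ht, cur, if_pos hz]
      exact .check _ _ _ hl (hok z hz hl)
    · simp [hh, Dir.shift]
    · show Function.update c.tape c.head _ _ = _
      rw [Function.update_of_ne (by rw [hh]; push_cast; omega), hr (z + 1) (by omega),
        rcv_succ_last hl]
    · intro x hx
      show Function.update c.tape c.head _ _ = _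
      rw [Function.update_of_ne (by rw [hh]; omega), hr x (by omega)]
  · have hz1 : z + 1 < n := by
      by_contra hcon
      exact hl (Or.inr (by omega))
    have h1 : (mach n l₀ L).Next c ⟨.inr 0, c.head + Dir.shift .stay,
        Function.update c.tape c.head (.full (seg l₀ w z))⟩ := by
      refine next_update ?_
      rw [hs, hh, ht, cur, if_pos hz]
      exact .take _ _ _ hl
    obtain ⟨c', hreach, hPA⟩ := run_give L w hl (seg l₀ w z) [] ⟨.inr 0,
      c.head + Dir.shift .stay, Function.update c.tape c.head (.full (seg l₀ w z))⟩ (by simp)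
      ⟨hz1, rfl, by simp [hh, Dir.shift], by
        show Function.update c.tape c.head _ _ = _
        rw [hh, Function.update_self], by
        show Function.update c.tape c.head _ _ = _
        rw [Function.update_of_ne (by rw [hh]; push_cast; omega), hr (z + 1) (by omega)], by
        intro x hx
        show Function.update c.tape c.head _ _ = _
        rw [Function.update_of_ne (by rw [hh]; omega), hr x (by omega)]⟩
    have := seg_length hl₀ w z hz
    exact ⟨2 * (seg l₀ w z).length + 1 + 1, by omega, c', .cons h1 hreach, hPA⟩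

theorem run_all (hl₀ : 1 ≤ l₀) (L : ℕ → Set (List (Fin q))) (w : Fin n → Fin q)
    (hok : Ok l₀ L w n) (z : ℕ) (hz : z ≤ n) :
    ∃ t ≤ z * (2 * l₀ + 2), ∃ c', (mach n l₀ L).Reach t ((mach n l₀ L).init enc w) c' ∧
      PA l₀ w z c' := by
  induction z with
  | zero => exact ⟨0, Nat.zero_le _, _, .refl _, init_PA L w⟩
  | succ z ih =>
    obtain ⟨t, ht, c, hr, hc⟩ := ih (by omega)
    obtain ⟨t', ht', c', hr', hc'⟩ := run_cell hl₀ L w hok (by omega) hc
    exact ⟨t + t', by rw [add_mul, one_mul]; omega, c', reach_trans hr hr', hc'⟩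

theorem complete (hl₀ : 1 ≤ l₀) {L : ℕ → Set (List (Fin q))} {w : Fin n → Fin q}
    (hok : Ok l₀ L w n) :
    (mach n l₀ L).AcceptsIn (2 * n * l₀ + 2 * n + 1) ((mach n l₀ L).init enc w) := by
  obtain ⟨t, ht, c, hr, _, hs, hh, htp, _⟩ := run_all hl₀ L w hok n le_rfl
  have h1 : (mach n l₀ L).Next c ⟨.inr 2, c.head + Dir.shift .stay,
      Function.update c.tape c.head .stop⟩ := by
    refine next_update ?_
    rw [hs, hh, htp, cur, if_neg (lt_irrefl n)]
    exact .stop
  refine ⟨t + (0 + 1), ?_, _, reach_trans hr (.cons h1 (.refl _)), rfl⟩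
  have : n * (2 * l₀ + 2) = 2 * n * l₀ + 2 * n := by ring
  omega

end Blocks

/-- **Blocks of length `l` are tested in `2 n l + 2 n + 1` steps with `q + 3` states.** -/
theorem gather_blocks (n q l : ℕ) (hl : 1 ≤ l) (L : ℕ → Set (List (Fin q))) :
    ∃ (Q Γ : Type) (_ : Fintype Q) (M : Machine Q Γ) (enc : ℤ → Option (Fin q) → Γ),
      Fintype.card Q = q + 3 ∧
      (∀ w : Fin n → Fin q, M.Accepts (M.init enc w) ↔
        ∀ b, b * l < n → ((List.ofFn w).drop (b * l)).take l ∈ L b) ∧
      ∀ w : Fin n → Fin q, (∀ b, b * l < n → ((List.ofFn w).drop (b * l)).take l ∈ L b) →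
        M.AcceptsIn (2 * n * l + 2 * n + 1) (M.init enc w) := by
  have hc : ∀ w : Fin n → Fin q,
      (∀ b, b * l < n → ((List.ofFn w).drop (b * l)).take l ∈ L b) →
      (Blocks.mach n l L).AcceptsIn (2 * n * l + 2 * n + 1)
        ((Blocks.mach n l L).init Blocks.enc w) :=
    fun w hw => Blocks.complete hl ((Blocks.ok_iff hl L w).2 hw)
  exact ⟨Blocks.St q, Blocks.Sym q, inferInstance, Blocks.mach n l L, Blocks.enc, by simp,
    fun w => ⟨fun h => (Blocks.ok_iff hl L w).1 (Blocks.sound h), fun hw => (hc w hw).accepts⟩,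
    hc⟩

end Pool.Agent.Helper45.TY
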