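import Pool.Agent.Helper1.TY.Gen

/-!
Sets of positions in S-adic and morphic words.
-/

set_option autoImplicit false

open Finset Filter

namespace Pool.Agent.Helper45.TY

open Pool.Agent.Helper1.TY

/-- The word `σ 0 (σ 1 (.. (σ (n - 1) b)))` obtained from the letter `b` by `n` substitutions;
for a constant sequence it is the `n`-th iterate. -/
def expand {s : ℕ} (σ : ℕ → Fin s → List (Fin s)) : ℕ → Fin s → List (Fin s)
  | 0, b => [b]
  | n + 1, b => (σ n b).flatMap (expand σ n)

/-- The word `l` occurs in the infinite word `w` at position `t`. -/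
def Occurs {s : ℕ} (w : ℕ → Fin s) (t : ℕ) (l : List (Fin s)) : Prop :=
  ∀ i < l.length, l[i]? = some (w (t + i))

/-- the positions of the letters of `S` in the word `l` -/
noncomputable def pos {s : ℕ} (S : Set (Fin s)) (l : List (Fin s)) : Finset ℕ := by
  exact @Finset.filter ℕ (fun i => ∃ b ∈ S, l[i]? = some b) (Classical.decPred _) (range l.length)

theorem mem_pos {s : ℕ} {S : Set (Fin s)} {l : List (Fin s)} {i : ℕ} :
    i ∈ pos S l ↔ ∃ b ∈ S, l[i]? = some b := by
  unfold pos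
  rw [@Finset.mem_filter ℕ _ (Classical.decPred _), mem_range]
  constructor
  · exact fun h => h.2
  · rintro ⟨b, hb, h⟩
    exact ⟨(List.getElem?_eq_some_iff.1 h).1, b, hb, h⟩

theorem lt_of_mem_pos {s : ℕ} {S : Set (Fin s)} {l : List (Fin s)} {i : ℕ} (h : i ∈ pos S l) :
    i < l.length := by
  obtain ⟨b, _, h⟩ := mem_pos.1 h
  exact (List.getElem?_eq_some_iff.1 h).1

theorem pos_append {s : ℕ} (S : Set (Fin s)) (l l' : List (Fin s)) :
    pos S (l ++ l') = pos S l ∪ (pos S l').image (l.length + ·) := by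
  ext i
  rw [mem_union, mem_image]
  simp only [mem_pos]
  rcases Nat.lt_or_ge i l.length with h | h
  · rw [List.getElem?_append_left h]
    constructor
    · exact fun h' => Or.inl h'
    · rintro (h' | ⟨j, _, rfl⟩)
      · exact h'
      · omega
  · rw [List.getElem?_append_right h]
    constructor
    · rintro ⟨b, hb, h'⟩
      exact Or.inr ⟨i - l.length, ⟨b, hb, h'⟩, by omega⟩
    · rintro (⟨b, hb, h'⟩ | ⟨j, ⟨b, hb, h'⟩, rfl⟩)
      · exact absurd (List.getElem?_eq_some_iff.1 h').1 (by omega)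
      · exact ⟨b, hb, by rw [← h']; congr 1; omega⟩

/-- adding one more translate on the left -/
theorem Tiled.cons {s Q : ℕ} {F : ℕ → Finset ℕ} {P : Finset ℕ} (h : Tiled s Q F P) {p t : ℕ}
    (hp : p < s) (ht : ∀ x ∈ F p, x < t) : Tiled s (Q + 1) F (F p ∪ P.image (t + ·)) := by
  classical
  obtain ⟨D, hD1, hD2, hD3, rfl⟩ := h
  have himg : ∀ q : ℕ × ℕ, ((F q.2).image (q.1 + ·)).image (t + ·) =
      (F q.2).image (t + q.1 + ·) := by
    intro q
    rw [image_image]
    congr 1
    funext x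
    simp [Nat.add_assoc]
  have hfar : ∀ q : ℕ × ℕ, Disjoint (F p) ((F q.2).image (t + q.1 + ·)) := by
    intro q
    rw [Finset.disjoint_left]
    intro x hx hx'
    obtain ⟨y, _, hy⟩ := mem_image.1 hx'
    have := ht x hx
    omega
  have h0 : (F p).image (0 + ·) = F p := by simp
  refine ⟨insert (0, p) (D.image (fun q => (t + q.1, q.2))), ?_, ?_, ?_, ?_⟩
  · exact (card_insert_le _ _).trans (Nat.succ_le_succ (card_image_le.trans hD1))
  · intro q hq
    rw [mem_insert, mem_image] at hq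
    rcases hq with rfl | ⟨q', hq', rfl⟩
    · exact hp
    · exact hD2 q' hq'
  · intro q hq q' hq' hne
    rw [mem_insert, mem_image] at hq hq'
    rcases hq with rfl | ⟨r, hr, rfl⟩
    · rcases hq' with rfl | ⟨r', hr', rfl⟩
      · exact absurd rfl hne
      · simp only [h0]
        exact hfar r'
    · rcases hq' with rfl | ⟨r', hr', rfl⟩
      · simp only [h0]
        exact (hfar r).symm
      · have hrr : r ≠ r' := fun h => hne (by rw [h])
        have := hD3 r hr r' hr' hrr
        simp only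
        rw [← himg r, ← himg r']
        rw [Finset.disjoint_left] at this ⊢
        intro x hx hx'
        obtain ⟨y, hy, rfl⟩ := mem_image.1 hx
        obtain ⟨y', hy', hyy⟩ := mem_image.1 hx'
        have : y' = y := by omega
        subst this
        exact this hy hy'
  · ext x
    simp only [mem_union, mem_image, mem_biUnion, mem_insert]
    constructor
    · rintro (h | ⟨y, ⟨q, hq, z, hz, rfl⟩, rfl⟩)
      · exact ⟨(0, p), Or.inl rfl, x, h, by simp⟩
      · exact ⟨(t + q.1, q.2), Or.inr ⟨q, hq, rfl⟩, z, hz, by simp only; omega⟩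
    · rintro ⟨q, rfl | ⟨r, hr, rfl⟩, z, hz, rfl⟩
      · left
        simpa using hz
      · right
        exact ⟨r.1 + z, ⟨r, hr, z, hz, rfl⟩, by simp only; omega⟩

/-- the family of the sets of positions of `S` in `f p`, `p` a letter -/
noncomputable def fam {s : ℕ} (S : Set (Fin s)) (f : Fin s → List (Fin s)) (p : ℕ) : Finset ℕ :=
  if h : p < s then pos S (f ⟨p, h⟩) else ∅

theorem fam_eq {s : ℕ} (S : Set (Fin s)) (f : Fin s → List (Fin s)) (b : Fin s) :
    fam S f b = pos S (f b) := by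
  unfold fam
  rw [dif_pos b.2]

theorem tiled_flatMap {s : ℕ} (S : Set (Fin s)) (f : Fin s → List (Fin s)) (l : List (Fin s)) :
    Tiled s l.length (fam S f) (pos S (l.flatMap f)) := by
  induction l with
  | nil =>
    refine ⟨∅, by simp, by simp, by simp, ?_⟩
    ext i
    simp [mem_pos]
  | cons b l ih =>
    rw [List.flatMap_cons, pos_append, ← fam_eq S f b, List.length_cons]
    refine Tiled.cons ih b.2 (fun x hx => ?_)
    rw [fam_eq] at hx
    exact lt_of_mem_pos hx

theorem fam_empty {s : ℕ} (S : Set (Fin s)) (f : Fin s → List (Fin s)) {p : ℕ} (h : s ≤ p) :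
    fam S f p = ∅ := by
  unfold fam
  rw [dif_neg (by omega)]

theorem selfSimilar_aux0 {s : ℕ} (S : Set (Fin s)) (σ : ℕ → Fin s → List (Fin s)) {p : ℕ}
    (hp : p < s) : (fam S (expand σ 0) p).card ≤ 1 := by
  have e : fam S (expand σ 0) p = pos S [⟨p, hp⟩] := by
    unfold fam
    rw [dif_pos hp]
    rfl
  rw [e]
  have : pos S [(⟨p, hp⟩ : Fin s)] ⊆ {0} := by
    intro i hi
    have := lt_of_mem_pos hi
    simp only [List.length_cons, List.length_nil] at this
    rw [mem_singleton]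
    omega
  exact (card_le_card this).trans (by simp)

theorem selfSimilar_aux {s Q : ℕ} (S : Set (Fin s)) (σ : ℕ → Fin s → List (Fin s))
    (hσ : ∀ i b, (σ i b).length ≤ Q) (i : ℕ) {p : ℕ} (hp : p < s) :
    Tiled s Q (fam S (expand σ i)) (fam S (expand σ (i + 1)) p) := by
  have e : fam S (expand σ (i + 1)) p = pos S ((σ i ⟨p, hp⟩).flatMap (expand σ i)) := by
    unfold fam
    rw [dif_pos hp]
    rfl
  rw [e]
  exact (tiled_flatMap S (expand σ i) (σ i ⟨p, hp⟩)).mono (hσ i _)

theorem Tiled.mono_left {s s' Q : ℕ} {F : ℕ → Finset ℕ} {P : Finset ℕ} (h : Tiled s Q F P)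
    (hs : s ≤ s') : Tiled s' Q F P := by
  obtain ⟨D, hD1, hD2, hD3⟩ := h
  exact ⟨D, hD1, fun q hq => (hD2 q hq).trans_le hs, hD3⟩

theorem selfSimilar_expand {s s' Q : ℕ} (hss : s ≤ s') (S : Set (Fin s))
    (σ : ℕ → Fin s → List (Fin s)) (hσ : ∀ i b, (σ i b).length ≤ Q) (n : ℕ) :
    SelfSimilar s' Q n (fun i => fam S (expand σ i)) := by
  have key : ∀ i p, s ≤ p → Tiled s' Q (fam S (expand σ i)) (fam S (expand σ (i + 1)) p) := by
    intro i p hp
    rw [fam_empty S _ hp]
    exact ⟨∅, by simp, by simp, by simp, by simp⟩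
  refine ⟨fun p _ => ?_, fun i _ p _ => ?_⟩
  · rcases Nat.lt_or_ge p s with hp | hp
    swap
    · show (fam S (expand σ 0) p).card ≤ 1
      rw [fam_empty S _ hp]
      simp
    exact selfSimilar_aux0 S σ hp
  · rcases Nat.lt_or_ge p s with hp | hp
    swap
    · exact key i p hp
    exact Tiled.mono_left (selfSimilar_aux S σ hσ i hp) hss
/-- the number of ordered pairs of elements of `A` with sum `n` -/
noncomputable def rep (A : Set ℕ) (n : ℕ) : ℕ :=
  {q : ℕ × ℕ | q.1 ∈ A ∧ q.2 ∈ A ∧ q.1 + q.2 = n}.ncard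

theorem rep_finite (A : Set ℕ) (n : ℕ) :
    {q : ℕ × ℕ | q.1 ∈ A ∧ q.2 ∈ A ∧ q.1 + q.2 = n}.Finite := by
  refine (Finset.finite_toSet (Finset.HasAntidiagonal.antidiagonal n)).subset ?_
  rintro q ⟨_, _, h⟩
  rw [mem_coe, Finset.HasAntidiagonal.mem_antidiagonal]
  exact h

theorem rpF_le_rep {A : Set ℕ} {P : Finset ℕ} {t : ℕ} (h : ∀ x ∈ P, t + x ∈ A) (N : ℕ) :
    rpF P N ≤ rep A (N + 2 * t) := by
  unfold rpF rep
  rw [← Set.ncard_coe_finset]
  refine Set.ncard_le_ncard_of_injOn (fun q => (t + q.1, t + q.2)) ?_ ?_ (rep_finite A _)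
  · rintro q hq
    rw [mem_coe, mem_filter, mem_product] at hq
    exact ⟨h _ hq.1.1, h _ hq.1.2, by simp only; omega⟩
  · rintro q _ q' _ h
    simp only [Prod.mk.injEq, Nat.add_left_cancel_iff] at h
    exact Prod.ext h.1 h.2

theorem rpF_bound {P : Finset ℕ} {L N : ℕ} (hP : ∀ x ∈ P, x < L) (h : 0 < rpF P N) : N < 2 * L := by
  obtain ⟨q, hq⟩ := card_pos.1 h
  rw [mem_filter, mem_product] at hq
  have h1 := hP _ hq.1.1
  have h2 := hP _ hq.1.2
  omega

/-- **S-adic sets.** If the word `σ_0 σ_1 .. σ_(n-1) (b)` (substitutions on `s` letters with images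
of length at most `Q`) occurs in the infinite word `w` at position `t` and contains
`M ≥ exp (α n)` letters of `S`, then the set of the positions of `S` in `w` has a number with at
least `M ^ (c / log s)` representations. -/
theorem sadic (Q : ℕ) (α : ℝ) (hα : 0 < α) : ∃ c : ℝ, 0 < c ∧ ∀ s s' n : ℕ, s ≤ s' → 2 ≤ s' →
    1 ≤ n →
    ∀ (σ : ℕ → Fin s → List (Fin s)), (∀ i b, (σ i b).length ≤ Q) →
    ∀ (S : Set (Fin s)) (w : ℕ → Fin s) (t : ℕ) (b : Fin s), Occurs w t (expand σ n b) →
    Real.exp (α * n) ≤ ((pos S (expand σ n b)).card : ℝ) →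
    ∃ N < 2 * (t + (expand σ n b).length),
      ((pos S (expand σ n b)).card : ℝ) ^ (c / Real.log s') ≤ rep {i | w i ∈ S} N := by
  obtain ⟨c, hc, h⟩ := gen Q α hα
  refine ⟨c, hc, fun s s' n hss hs hn σ hσ S w t b hocc hM => ?_⟩
  obtain ⟨N, hN⟩ := h s' n hs hn (fun i => fam S (expand σ i)) (selfSimilar_expand hss S σ hσ n)
    b (b.2.trans_le hss) (by simpa only [fam_eq] using hM)
  simp only [fam_eq] at hN
  have hpos : 0 < rpF (pos S (expand σ n b)) N := by
    have h1 : (0 : ℝ) < ((pos S (expand σ n b)).card : ℝ) :=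
      lt_of_lt_of_le (Real.exp_pos _) hM
    have h2 : (0 : ℝ) < ((pos S (expand σ n b)).card : ℝ) ^ (c / Real.log s') := by positivity
    exact_mod_cast h2.trans_le hN
  have hb := rpF_bound (L := (expand σ n b).length) (fun x hx => lt_of_mem_pos hx) hpos
  refine ⟨N + 2 * t, by omega, hN.trans ?_⟩
  have := rpF_le_rep (A := {i | w i ∈ S}) (P := pos S (expand σ n b)) (t := t) (fun x hx => by
    obtain ⟨b', hb', h'⟩ := mem_pos.1 hx
    have h3 := hocc x (lt_of_mem_pos hx)
    rw [h'] at h3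
    show w (t + x) ∈ S
    rw [← Option.some.inj h3]
    exact hb') N
  exact_mod_cast this

/-- the number of elements of `A` below `x` -/
noncomputable def num (A : Set ℕ) (x : ℕ) : ℕ := (A ∩ Set.Iio x).ncard

theorem expand_succ' {s : ℕ} (σ : Fin s → List (Fin s)) (n : ℕ) (b : Fin s) :
    expand (fun _ => σ) (n + 1) b = (expand (fun _ => σ) n b).flatMap σ := by
  induction n generalizing b with
  | zero => simp [expand]
  | succ n ih =>
    have e : expand (fun _ => σ) (n + 2) b = (σ b).flatMap (expand (fun _ => σ) (n + 1)) := rfl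
    have e' : expand (fun _ => σ) (n + 1) b = (σ b).flatMap (expand (fun _ => σ) n) := rfl
    rw [e, e', List.flatMap_assoc]
    congr 1
    funext c
    exact ih c

theorem length_flatMap_le {s Q : ℕ} (σ : Fin s → List (Fin s)) (hσ : ∀ b, (σ b).length ≤ Q)
    (l : List (Fin s)) : (l.flatMap σ).length ≤ Q * l.length := by
  induction l with
  | nil => simp
  | cons b l ih =>
    rw [List.flatMap_cons, List.length_append, List.length_cons]
    have := hσ b
    nlinarith

theorem num_le_pos {s : ℕ} (S : Set (Fin s)) (w : ℕ → Fin s) (l : List (Fin s))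
    (h : Occurs w 0 l) {x : ℕ} (hx : x ≤ l.length) :
    num {i | w i ∈ S} x ≤ (pos S l).card := by
  unfold num
  rw [← Set.ncard_coe_finset]
  refine Set.ncard_le_ncard ?_ (finite_toSet _)
  rintro i ⟨hi, hix⟩
  rw [mem_coe, mem_pos]
  have hix' : i < l.length := lt_of_lt_of_le hix hx
  have := h i hix'
  rw [Nat.zero_add] at this
  exact ⟨w i, hi, this⟩

/-- **Morphic sets.** Let `w` be an infinite word all of whose prefixes `σ ^ n (a)` are iterates of
a substitution on `s` letters, `|σ ^ n (a)| ≥ ρ ^ n` for large `n`, `ρ > 1`, and let `A` be the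
set of the positions of the letters of `S`.  Then for `d > 0` there is `c > 0` such that for every
large `x` with `|A ∩ [0, x)| ≥ x ^ d` some `N < 2 Q x` has at least `x ^ c` representations. -/
theorem morphic {s Q : ℕ} (σ : Fin s → List (Fin s)) (hσ : ∀ b, (σ b).length ≤ Q) (a : Fin s)
    (w : ℕ → Fin s) (S : Set (Fin s)) (hw : ∀ n, Occurs w 0 (expand (fun _ => σ) n a))
    (ρ : ℝ) (hρ : 1 < ρ)
    (hgrow : ∀ᶠ n : ℕ in atTop, ρ ^ n ≤ ((expand (fun _ => σ) n a).length : ℝ))
    (d : ℝ) (hd : 0 < d) : ∃ c : ℝ, 0 < c ∧ ∀ᶠ x : ℕ in atTop,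
      (x : ℝ) ^ d ≤ num {i | w i ∈ S} x →
      ∃ N < 2 * Q * x, (x : ℝ) ^ c ≤ rep {i | w i ∈ S} N := by
  set L : ℕ → ℕ := fun n => (expand (fun _ => σ) n a).length with hL
  have hL0 : L 0 = 1 := rfl
  have hLs : ∀ n, L (n + 1) ≤ Q * L n := by
    intro n
    simp only [hL]
    rw [expand_succ']
    exact length_flatMap_le σ hσ _
  obtain ⟨m₀, hm₀⟩ := eventually_atTop.1 hgrow
  have hlog : 0 < Real.log ρ := Real.log_pos hρ
  obtain ⟨c, hc, h⟩ := sadic Q (d * Real.log ρ / 2) (by positivity)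
  have hs' : 2 ≤ max s 2 := le_max_right _ _
  have hlogs : 0 < Real.log ((max s 2 : ℕ) : ℝ) := Real.log_pos (by exact_mod_cast hs')
  refine ⟨d * (c / Real.log ((max s 2 : ℕ) : ℝ)), by positivity, ?_⟩
  filter_upwards [eventually_gt_atTop (Q ^ (m₀ + 2)), eventually_ge_atTop 2] with x hx hx2 hnum
  -- choice of the level
  have hex : ∃ n, x ≤ L n := by
    obtain ⟨n, hn⟩ := pow_unbounded_of_one_lt (x : ℝ) hρ
    refine ⟨max n m₀, ?_⟩
    have h1 := hm₀ (max n m₀) (le_max_right _ _)
    have h2 : ρ ^ n ≤ ρ ^ (max n m₀) := pow_le_pow_right₀ hρ.le (le_max_left _ _)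
    have h3 : (x : ℝ) ≤ L (max n m₀) := hn.le.trans (h2.trans h1)
    exact_mod_cast h3
  classical
  obtain ⟨n, hn, hmin⟩ : ∃ n, x ≤ L n ∧ ∀ m < n, L m < x :=
    ⟨Nat.find hex, Nat.find_spec hex, fun m hm => not_le.1 (Nat.find_min hex hm)⟩
  obtain ⟨m, rfl⟩ : ∃ m, n = m + 1 := by
    rcases n with _ | m
    · rw [hL0] at hn
      omega
    · exact ⟨m, rfl⟩
  have hLm : L m < x := hmin m (Nat.lt_succ_self m)
  have hQ1 : 1 ≤ Q := by
    rcases Nat.eq_zero_or_pos Q with h0 | h0
    · have := hLs m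
      rw [h0] at this
      omega
    · exact h0
  have hLQ : ∀ i, L i ≤ Q ^ i := by
    intro i
    induction i with
    | zero => simp [hL0]
    | succ i ih =>
      calc L (i + 1) ≤ Q * L i := hLs i
        _ ≤ Q * Q ^ i := Nat.mul_le_mul_left _ ih
        _ = Q ^ (i + 1) := by ring
  have hm : m₀ + 1 ≤ m := by
    by_contra hcon
    have h1 : L (m + 1) ≤ Q ^ (m₀ + 2) := (hLQ _).trans (Nat.pow_le_pow_right hQ1 (by omega))
    omega
  have hρm : ρ ^ m ≤ (L m : ℝ) := hm₀ m (by omega)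
  have hcard : num {i | w i ∈ S} x ≤ (pos S (expand (fun _ => σ) (m + 1) a)).card :=
    num_le_pos S w _ (hw (m + 1)) hn
  have hxd : (x : ℝ) ^ d ≤ ((pos S (expand (fun _ => σ) (m + 1) a)).card : ℝ) :=
    hnum.trans (by exact_mod_cast hcard)
  have hexp : Real.exp (d * Real.log ρ / 2 * ((m + 1 : ℕ) : ℝ)) ≤
      ((pos S (expand (fun _ => σ) (m + 1) a)).card : ℝ) := by
    refine le_trans ?_ hxd
    have h1 : (ρ ^ m) ^ d ≤ (x : ℝ) ^ d :=
      Real.rpow_le_rpow (by positivity) (hρm.trans (by exact_mod_cast hLm.le)) hd.le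
    refine le_trans ?_ h1
    rw [← Real.rpow_natCast ρ m, ← Real.rpow_mul (by positivity), Real.rpow_def_of_pos (by linarith)]
    rw [Real.exp_le_exp]
    have h2 : (1 : ℝ) ≤ m := by exact_mod_cast (by omega : 1 ≤ m)
    push_cast
    have h3 : 0 < d * Real.log ρ := by positivity
    nlinarith
  obtain ⟨N, hN, hr⟩ := h s (max s 2) (m + 1) (le_max_left _ _) hs' (by omega) (fun _ => σ)
    (fun _ b => hσ b) S w 0 a (hw (m + 1)) hexp
  refine ⟨N, ?_, ?_⟩
  · have h1 : L (m + 1) ≤ Q * x := (hLs m).trans (Nat.mul_le_mul_left _ hLm.le)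
    have h2 : N < 2 * (0 + L (m + 1)) := hN
    have h3 : 2 * Q * x = 2 * (Q * x) := by ring
    omega
  · refine le_trans ?_ hr
    rw [Real.rpow_mul (by positivity)]
    exact Real.rpow_le_rpow (by positivity) hxd (by positivity)

end Pool.Agent.Helper45.TY
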