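import Pool.Agent.Helper45.TY.Count

/-!
Every set of words of length `n` over `q` letters is accepted by a one-tape machine with `q + 3`
states in `n ^ 2 + O(n)` steps, if the tape alphabet is not restricted: the machine carries the
letters one by one to the cell `-1`.
-/

set_option autoImplicit false

open Finset Filter

namespace Pool.Agent.Helper45.TY

namespace Gather

/-- symbols -/
inductive Sym (q : ℕ)
  | letter (a : Fin q)
  | erased
  | stop
  | acc (l : List (Fin q))

/-- states: `inl a` carries the letter `a` to the left; `inr 0` seeks the next letter, `inr 1` goes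
to the accumulator to check, `inr 2` accepts. -/
abbrev St (q : ℕ) := Fin q ⊕ Fin 3

/-- the steps -/
inductive GStep {q : ℕ} (L : Set (List (Fin q))) : St q → Sym q → St q → Sym q → Dir → Prop
  | seek_erased : GStep L (.inr 0) .erased (.inr 0) .erased .right
  | seek_letter (a : Fin q) : GStep L (.inr 0) (.letter a) (.inl a) .erased .left
  | seek_stop : GStep L (.inr 0) .stop (.inr 1) .stop .left
  | carry_erased (a : Fin q) : GStep L (.inl a) .erased (.inl a) .erased .left
  | carry_acc (a : Fin q) (l : List (Fin q)) :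
      GStep L (.inl a) (.acc l) (.inr 0) (.acc (l ++ [a])) .right
  | check_erased : GStep L (.inr 1) .erased (.inr 1) .erased .left
  | check_acc (l : List (Fin q)) (h : l ∈ L) : GStep L (.inr 1) (.acc l) (.inr 2) (.acc l) .stay

/-- the machine -/
def mach {q : ℕ} (L : Set (List (Fin q))) : Machine (St q) (Sym q) where
  step := GStep L
  start := .inr 0
  accept := fun p => p = .inr 2

/-- the coding of the input -/
def enc {q : ℕ} (z : ℤ) (x : Option (Fin q)) : Sym q :=
  match x with
  | some a => .letter a
  | none => if z = -1 then .acc [] else .stop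

variable {n q : ℕ}

/-- the tape when `i` letters have been erased and the accumulator contains `l` -/
def tp (w : Fin n → Fin q) (i : ℕ) (l : List (Fin q)) (z : ℤ) : Sym q :=
  if z = -1 then .acc l
  else if 0 ≤ z ∧ z < i then .erased
  else if h : 0 ≤ z ∧ z < n then .letter (w ⟨z.toNat, by omega⟩) else .stop

theorem init_eq (L : Set (List (Fin q))) (w : Fin n → Fin q) :
    (mach L).init enc w = ⟨.inr 0, 0, tp w 0 []⟩ := by
  ext z
  · rfl
  · rfl
  · simp only [Machine.init, inputTape, tp, enc]
    by_cases h1 : z = -1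
    · subst h1
      simp
    · by_cases h2 : 0 ≤ z ∧ z < n
      · have h3 : ¬ (0 ≤ z ∧ z < ((0 : ℕ) : ℤ)) := by
          push_cast
          omega
        simp [h1, h2, h3]
      · have h3 : ¬ (0 ≤ z ∧ z < ((0 : ℕ) : ℤ)) := by
          push_cast
          omega
        simp [h1, h2, h3]

theorem tp_acc (w : Fin n → Fin q) (i : ℕ) (l : List (Fin q)) : tp w i l (-1) = .acc l := by
  simp [tp]

theorem tp_erased (w : Fin n → Fin q) {i : ℕ} (l : List (Fin q)) {z : ℤ} (h0 : 0 ≤ z)
    (h1 : z < i) : tp w i l z = .erased := by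
  have : z ≠ -1 := by omega
  simp [tp, this, h0, h1]

theorem tp_letter (w : Fin n → Fin q) {i : ℕ} (l : List (Fin q)) (hi : i < n) :
    tp w i l (i : ℤ) = .letter (w ⟨i, hi⟩) := by
  have h1 : ((i : ℕ) : ℤ) ≠ -1 := by omega
  have h2 : ¬ (0 ≤ ((i : ℕ) : ℤ) ∧ ((i : ℕ) : ℤ) < i) := by omega
  have h3 : 0 ≤ ((i : ℕ) : ℤ) ∧ ((i : ℕ) : ℤ) < n := by omega
  unfold tp
  rw [if_neg h1, if_neg h2, dif_pos h3]
  rfl

theorem tp_stop (w : Fin n → Fin q) (l : List (Fin q)) : tp w n l (n : ℤ) = .stop := by
  have h1 : ((n : ℕ) : ℤ) ≠ -1 := by omega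
  have h2 : ¬ (0 ≤ ((n : ℕ) : ℤ) ∧ ((n : ℕ) : ℤ) < n) := by omega
  unfold tp
  rw [if_neg h1, if_neg h2, dif_neg h2]

theorem tp_succ (w : Fin n → Fin q) {i : ℕ} (l : List (Fin q)) {z : ℤ} (hz : z ≠ i) :
    tp w (i + 1) l z = tp w i l z := by
  unfold tp
  by_cases h1 : z = -1
  · rw [if_pos h1, if_pos h1]
  · rw [if_neg h1, if_neg h1]
    by_cases h2 : 0 ≤ z ∧ z < i
    · rw [if_pos h2, if_pos (by push_cast; omega)]
    · rw [if_neg h2, if_neg (by push_cast; omega)]

theorem tp_acc_ne (w : Fin n → Fin q) (i : ℕ) (l l' : List (Fin q)) {z : ℤ} (hz : z ≠ -1) :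
    tp w i l z = tp w i l' z := by
  unfold tp
  rw [if_neg hz, if_neg hz]

/-- the letters already collected -/
def col (w : Fin n → Fin q) (i : ℕ) : List (Fin q) := (List.ofFn w).take i

theorem col_succ (w : Fin n → Fin q) {i : ℕ} (hi : i < n) :
    col w (i + 1) = col w i ++ [w ⟨i, hi⟩] := by
  unfold col
  rw [List.take_succ]
  congr 1
  simp [hi]

theorem col_all (w : Fin n → Fin q) : col w n = List.ofFn w := by
  unfold col
  rw [List.take_of_length_le]
  simp

/-- the invariant -/
def Inv (L : Set (List (Fin q))) (w : Fin n → Fin q) (c : Config (St q) (Sym q)) : Prop :=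
  (∃ i ≤ n, c.state = .inr 0 ∧ 0 ≤ c.head ∧ c.head ≤ i ∧ c.tape = tp w i (col w i)) ∨
  (∃ i, ∃ hi : i < n, c.state = .inl (w ⟨i, hi⟩) ∧ -1 ≤ c.head ∧ c.head ≤ i ∧
    c.tape = tp w (i + 1) (col w i)) ∨
  (c.state = .inr 1 ∧ -1 ≤ c.head ∧ c.head < n ∧ c.tape = tp w n (col w n)) ∨
  (c.state = .inr 2 ∧ List.ofFn w ∈ L)

theorem inv_next {L : Set (List (Fin q))} {w : Fin n → Fin q} {c c' : Config (St q) (Sym q)}
    (hc : Inv L w c) (h : (mach L).Next c c') : Inv L w c' := by
  obtain ⟨d, hstep, hhead, htape⟩ := h
  change GStep L c.state (c.tape c.head) c'.state (c'.tape c.head) d at hstep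
  rcases hc with ⟨i, hi, hs, h0, h1, ht⟩ | ⟨i, hi, hs, h0, h1, ht⟩ | ⟨hs, h0, h1, ht⟩ | ⟨hs, hL⟩
  · -- seek
    rw [hs] at hstep
    rcases lt_or_eq_of_le h1 with h2 | h2
    · have e : c.tape c.head = .erased := by rw [ht]; exact tp_erased w _ h0 h2
      rw [e] at hstep
      generalize hs' : c'.state = s' at hstep
      generalize hg' : c'.tape c.head = g' at hstep
      cases hstep
      left
      refine ⟨i, hi, hs', ?_, ?_, ?_⟩
      · simp only [Dir.shift] at hhead
        omega
      · simp only [Dir.shift] at hhead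
        omega
      · funext z
        by_cases hz : z = c.head
        · rw [hz, hg', ← ht, e]
        · rw [htape z hz, ht]
    · rcases lt_or_eq_of_le hi with h3 | h3
      · have e : c.tape c.head = .letter (w ⟨i, h3⟩) := by rw [ht, h2]; exact tp_letter w _ h3
        rw [e] at hstep
        generalize hs' : c'.state = s' at hstep
        generalize hg' : c'.tape c.head = g' at hstep
        cases hstep
        right; left
        refine ⟨i, h3, hs', ?_, ?_, ?_⟩
        · simp only [Dir.shift] at hhead
          omega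
        · simp only [Dir.shift] at hhead
          omega
        · funext z
          by_cases hz : z = c.head
          · rw [hz, hg']
            exact (tp_erased w _ h0 (by push_cast; omega)).symm
          · rw [htape z hz, ht]
            exact (tp_succ w _ (by rw [← h2]; exact hz)).symm
      · subst h3
        have e : c.tape c.head = .stop := by rw [ht, h2]; exact tp_stop w _
        rw [e] at hstep
        generalize hs' : c'.state = s' at hstep
        generalize hg' : c'.tape c.head = g' at hstep
        cases hstep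
        right; right; left
        refine ⟨hs', ?_, ?_, ?_⟩
        · simp only [Dir.shift] at hhead
          omega
        · simp only [Dir.shift] at hhead
          omega
        · funext z
          by_cases hz : z = c.head
          · rw [hz, hg', ← ht, e]
          · rw [htape z hz, ht]
  · -- carry
    rw [hs] at hstep
    rcases lt_or_eq_of_le h0 with h2 | h2
    · have e : c.tape c.head = .erased := by
        rw [ht]
        exact tp_erased w _ (by omega) (by push_cast; omega)
      rw [e] at hstep
      generalize hs' : c'.state = s' at hstep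
      generalize hg' : c'.tape c.head = g' at hstep
      cases hstep
      right; left
      refine ⟨i, hi, hs', ?_, ?_, ?_⟩
      · simp only [Dir.shift] at hhead
        omega
      · simp only [Dir.shift] at hhead
        omega
      · funext z
        by_cases hz : z = c.head
        · rw [hz, hg', ← ht, e]
        · rw [htape z hz, ht]
    · have e : c.tape c.head = .acc (col w i) := by rw [ht, ← h2]; exact tp_acc w _ _
      rw [e] at hstep
      generalize hs' : c'.state = s' at hstep
      generalize hg' : c'.tape c.head = g' at hstep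
      cases hstep
      left
      refine ⟨i + 1, hi, hs', ?_, ?_, ?_⟩
      · simp only [Dir.shift] at hhead
        omega
      · simp only [Dir.shift] at hhead
        push_cast
        omega
      · funext z
        by_cases hz : z = c.head
        · rw [hz, hg', ← h2, tp_acc, col_succ w hi]
        · rw [htape z hz, ht]
          exact tp_acc_ne w _ _ _ (by rw [h2]; exact hz)
  · -- check
    rw [hs] at hstep
    rcases lt_or_eq_of_le h0 with h2 | h2
    · have e : c.tape c.head = .erased := by
        rw [ht]
        exact tp_erased w _ (by omega) h1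
      rw [e] at hstep
      generalize hs' : c'.state = s' at hstep
      generalize hg' : c'.tape c.head = g' at hstep
      cases hstep
      right; right; left
      refine ⟨hs', ?_, ?_, ?_⟩
      · simp only [Dir.shift] at hhead
        omega
      · simp only [Dir.shift] at hhead
        omega
      · funext z
        by_cases hz : z = c.head
        · rw [hz, hg', ← ht, e]
        · rw [htape z hz, ht]
    · have e : c.tape c.head = .acc (col w n) := by rw [ht, ← h2]; exact tp_acc w _ _
      rw [e] at hstep
      generalize hs' : c'.state = s' at hstep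
      generalize hg' : c'.tape c.head = g' at hstep
      cases hstep with
      | check_acc _ hl =>
        right; right; right
        rw [col_all] at hl
        exact ⟨hs', hl⟩
  · -- yes
    rw [hs] at hstep
    generalize c.tape c.head = g at hstep
    generalize c'.state = s' at hstep
    generalize c'.tape c.head = g' at hstep
    cases hstep

theorem inv_reach {L : Set (List (Fin q))} {w : Fin n → Fin q} {t : ℕ}
    {c c' : Config (St q) (Sym q)} (h : (mach L).Reach t c c') (hc : Inv L w c) : Inv L w c' := by
  induction h with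
  | refl c => exact hc
  | cons h1 _ ih => exact ih (inv_next hc h1)

theorem sound {L : Set (List (Fin q))} {w : Fin n → Fin q}
    (h : (mach L).Accepts ((mach L).init enc w)) : List.ofFn w ∈ L := by
  obtain ⟨t, c', hr, hacc⟩ := h
  have hinv : Inv L w ((mach L).init enc w) := by
    rw [init_eq]
    exact Or.inl ⟨0, Nat.zero_le _, rfl, le_rfl, le_rfl, by simp [col]⟩
  change c'.state = .inr 2 at hacc
  rcases inv_reach hr hinv with ⟨i, _, hs, _⟩ | ⟨i, hi, hs, _⟩ | ⟨hs, _⟩ | ⟨_, hL⟩
  · rw [hacc] at hs
    simp at hs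
  · rw [hacc] at hs
    simp at hs
  · rw [hacc] at hs
    simp at hs
  · exact hL

theorem reach_trans {Q Γ : Type} {M : Machine Q Γ} {t t' : ℕ} {a b c : Config Q Γ}
    (h : M.Reach t a b) (h' : M.Reach t' b c) : M.Reach (t + t') a c := by
  induction h with
  | refl c => simpa using h'
  | @cons t a a' b h1 _ ih =>
    have := Machine.Reach.cons h1 (ih h')
    rwa [show t + 1 + t' = t + t' + 1 by omega]

theorem next_same {L : Set (List (Fin q))} {p p' : St q} {tape : ℤ → Sym q} {h h' : ℤ} (d : Dir)
    (hstep : GStep L p (tape h) p' (tape h) d) (hh : h' = h + d.shift) :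
    (mach L).Next ⟨p, h, tape⟩ ⟨p', h', tape⟩ :=
  ⟨d, hstep, hh, fun _ _ => rfl⟩

theorem run_seek (L : Set (List (Fin q))) (w : Fin n → Fin q) (i : ℕ) (l : List (Fin q)) (k : ℕ) :
    ∀ h : ℕ, h + k = i → (mach L).Reach k ⟨.inr 0, (h : ℤ), tp w i l⟩ ⟨.inr 0, (i : ℤ), tp w i l⟩ := by
  induction k with
  | zero =>
    intro h hh
    have : h = i := by omega
    rw [this]
    exact .refl _
  | succ k ih =>
    intro h hh
    refine .cons (next_same .right ?_ ?_) (ih (h + 1) (by omega))
    · rw [tp_erased w l (by omega) (by omega)]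
      exact .seek_erased
    · simp [Dir.shift]

theorem run_carry (L : Set (List (Fin q))) (w : Fin n → Fin q) (i : ℕ) (l : List (Fin q))
    (a : Fin q) (k : ℕ) : k ≤ i →
    (mach L).Reach k ⟨.inl a, (k : ℤ) - 1, tp w i l⟩ ⟨.inl a, -1, tp w i l⟩ := by
  induction k with
  | zero =>
    intro _
    exact .refl _
  | succ k ih =>
    intro hk
    refine .cons (next_same .left ?_ ?_) (ih (by omega))
    · rw [tp_erased w l (by push_cast; omega) (by push_cast; omega)]
      exact .carry_erased a
    · simp only [Dir.shift]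
      push_cast
      ring

theorem run_check (L : Set (List (Fin q))) (w : Fin n → Fin q) (i : ℕ) (l : List (Fin q))
    (k : ℕ) : k ≤ i →
    (mach L).Reach k ⟨.inr 1, (k : ℤ) - 1, tp w i l⟩ ⟨.inr 1, -1, tp w i l⟩ := by
  induction k with
  | zero =>
    intro _
    exact .refl _
  | succ k ih =>
    intro hk
    refine .cons (next_same .left ?_ ?_) (ih (by omega))
    · rw [tp_erased w l (by push_cast; omega) (by push_cast; omega)]
      exact .check_erased
    · simp only [Dir.shift]
      push_cast
      ring

theorem run_letter (L : Set (List (Fin q))) (w : Fin n → Fin q) {i : ℕ} (hi : i < n) :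
    (mach L).Reach (2 * i + 2) ⟨.inr 0, 0, tp w i (col w i)⟩
      ⟨.inr 0, 0, tp w (i + 1) (col w (i + 1))⟩ := by
  have r1 := run_seek L w i (col w i) i 0 (by omega)
  have r2 : (mach L).Next ⟨.inr 0, (i : ℤ), tp w i (col w i)⟩
      ⟨.inl (w ⟨i, hi⟩), (i : ℤ) - 1, tp w (i + 1) (col w i)⟩ := by
    refine ⟨.left, ?_, by simp [Dir.shift, sub_eq_add_neg], ?_⟩
    · show GStep L _ (tp w i (col w i) i) _ (tp w (i + 1) (col w i) i) _
      rw [tp_letter w _ hi, tp_erased w _ (by omega) (by push_cast; omega)]
      exact .seek_letter _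
    · intro z hz
      exact tp_succ w _ hz
  have r3 := run_carry L w (i + 1) (col w i) (w ⟨i, hi⟩) i (by omega)
  have r4 : (mach L).Next ⟨.inl (w ⟨i, hi⟩), -1, tp w (i + 1) (col w i)⟩
      ⟨.inr 0, 0, tp w (i + 1) (col w (i + 1))⟩ := by
    refine ⟨.right, ?_, by simp [Dir.shift], ?_⟩
    · show GStep L _ (tp w (i + 1) (col w i) (-1)) _ (tp w (i + 1) (col w (i + 1)) (-1)) _
      rw [tp_acc, tp_acc, col_succ w hi]
      exact .carry_acc _ _
    · intro z hz
      exact tp_acc_ne w _ _ _ hz
  have := reach_trans r1 (.cons r2 (reach_trans r3 (.cons r4 (.refl _))))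
  have e : i + (i + (0 + 1) + 1) = 2 * i + 2 := by omega
  rw [e] at this
  exact_mod_cast this

theorem run_all (L : Set (List (Fin q))) (w : Fin n → Fin q) (i : ℕ) (hi : i ≤ n) :
    (mach L).Reach (i ^ 2 + i) ⟨.inr 0, 0, tp w 0 (col w 0)⟩ ⟨.inr 0, 0, tp w i (col w i)⟩ := by
  induction i with
  | zero => exact .refl _
  | succ i ih =>
    have := reach_trans (ih (by omega)) (run_letter L w (show i < n by omega))
    have e : i ^ 2 + i + (2 * i + 2) = (i + 1) ^ 2 + (i + 1) := by ring
    rwa [e] at this

theorem complete {L : Set (List (Fin q))} {w : Fin n → Fin q} (h : List.ofFn w ∈ L) :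
    (mach L).AcceptsIn (n ^ 2 + 3 * n + 2) ((mach L).init enc w) := by
  have r1 := run_all L w n le_rfl
  have r2 := run_seek L w n (col w n) n 0 (by omega)
  have r3 : (mach L).Next ⟨.inr 0, (n : ℤ), tp w n (col w n)⟩
      ⟨.inr 1, (n : ℤ) - 1, tp w n (col w n)⟩ := by
    refine next_same .left ?_ (by simp [Dir.shift, sub_eq_add_neg])
    rw [tp_stop]
    exact .seek_stop
  have r4 := run_check L w n (col w n) n le_rfl
  have r5 : (mach L).Next ⟨.inr 1, -1, tp w n (col w n)⟩ ⟨.inr 2, -1, tp w n (col w n)⟩ := by
    refine next_same .stay ?_ (by simp [Dir.shift])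
    rw [tp_acc]
    exact .check_acc _ (by rw [col_all]; exact h)
  have r6 := reach_trans r1 (reach_trans (by exact_mod_cast r2)
    (.cons r3 (reach_trans r4 (.cons r5 (.refl _)))))
  refine ⟨n ^ 2 + 3 * n + 2, le_rfl, ⟨.inr 2, -1, tp w n (col w n)⟩, ?_, rfl⟩
  have e0 : tp w 0 (col w 0) = tp w 0 [] := by simp [col]
  have e : n ^ 2 + n + (n + (n + (0 + 1) + 1)) = n ^ 2 + 3 * n + 2 := by ring
  rw [init_eq, ← e0, ← e]
  exact r6

end Gather

/-- **Every set of words is accepted in `n ^ 2 + O(n)` steps with `q + 3` states.** -/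
theorem gather (n q : ℕ) (L : Set (Fin n → Fin q)) :
    ∃ (Q Γ : Type) (_ : Fintype Q) (M : Machine Q Γ) (enc : ℤ → Option (Fin q) → Γ),
      Fintype.card Q = q + 3 ∧ (∀ w : Fin n → Fin q, M.Accepts (M.init enc w) ↔ w ∈ L) ∧
      ∀ w ∈ L, M.AcceptsIn (n ^ 2 + 3 * n + 2) (M.init enc w) := by
  have hc : ∀ w ∈ L, (Gather.mach (List.ofFn '' L)).AcceptsIn (n ^ 2 + 3 * n + 2)
      ((Gather.mach (List.ofFn '' L)).init Gather.enc w) :=
    fun w hw => Gather.complete ⟨w, hw, rfl⟩
  refine ⟨Gather.St q, Gather.Sym q, inferInstance, Gather.mach (List.ofFn '' L), Gather.enc,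
    by simp, fun w => ⟨fun h => ?_, fun hw => (hc w hw).accepts⟩, hc⟩
  obtain ⟨w', hw', he⟩ := Gather.sound h
  rw [← List.ofFn_injective he]
  exact hw'

end Pool.Agent.Helper45.TY
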