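import Pool.Agent.Helper45.TY.TimeSpace
import Pool.Agent.Helper1.TY.BaseQ

/-!
The time-space inequality in base `q`.
-/

set_option autoImplicit false

open Finset Filter

namespace Pool.Agent.Helper45.TY

open Pool.Agent.Helper1.TY (digitVal val_digitVal_injective val_digitVal_lt)

theorem rep_mono {A B : Set ℕ} (h : A ⊆ B) (N : ℕ) : rep A N ≤ rep B N := by
  unfold rep
  refine Set.ncard_le_ncard ?_ (rep_finite B N)
  rintro q ⟨h1, h2, h3⟩
  exact ⟨h h1, h h2, h3⟩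

theorem lt_of_rep_pos {A : Set ℕ} {L N : ℕ} (hA : ∀ a ∈ A, a < L) (h : 0 < rep A N) :
    N < 2 * L := by
  unfold rep at h
  obtain ⟨q, h1, h2, h3⟩ := Set.nonempty_of_ncard_ne_zero h.ne'
  have := hA _ h1
  have := hA _ h2
  omega

/-- **Time-space inequality in base `q`.** -/
theorem machine_base (q : ℕ) (hq : 2 ≤ q) (d : ℝ) (hd : 0 < d) : ∃ c : ℝ, 0 < c ∧
    ∀ (Q Γ : Type) [Fintype Q] (M : Machine Q Γ) (n T : ℕ) (enc : ℤ → Option (Fin q) → Γ)
      (π : Equiv.Perm (Fin n)) (A : Set ℕ), 1 ≤ n → n ≤ T →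
      (∀ w, M.Accepts (M.init enc w) → val (digitVal π) w ∈ A) →
      (q : ℝ) ^ (d * n) ≤ {w : Fin n → Fin q | M.AcceptsIn T (M.init enc w)}.ncard →
      ∃ N < 2 * q ^ n, Real.exp (c * n ^ 2 / (T * Real.log (Fintype.card Q + 1))) ≤ rep A N := by
  obtain ⟨c, hc, h⟩ := machine_val q hq d hd
  refine ⟨c, hc, ?_⟩
  intro Q Γ _ M n T enc π A hn hT hA hcard
  set B : Set ℕ := val (digitVal π) '' {w | M.Accepts (M.init enc w)} with hB
  have hBA : B ⊆ A := by
    rintro _ ⟨w, hw, rfl⟩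
    exact hA w hw
  obtain ⟨N, hN⟩ := h Q Γ M n T enc (digitVal π) B hn hT (fun w hw => ⟨w, hw, rfl⟩)
    (val_digitVal_injective π).injOn hcard
  refine ⟨N, ?_, hN.trans (by exact_mod_cast rep_mono hBA N)⟩
  refine lt_of_rep_pos (A := B) ?_ ?_
  · rintro _ ⟨w, _, rfl⟩
    exact val_digitVal_lt π w
  · have : (0 : ℝ) < rep B N := (Real.exp_pos _).trans_le hN
    exact_mod_cast this

end Pool.Agent.Helper45.TY
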