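import Pool.Agent.Helper45.TY.Morphic

/-!
Boxes of words: sets of words closed under mixing along a partition of the positions into pieces.
-/

set_option autoImplicit false

open Finset Filter

namespace Pool.Agent.Helper45.TY

/-- the value `∑ v i (w i)` of a word in an additive numeration -/
def val {n q : ℕ} (v : Fin n → Fin q → ℕ) (w : Fin n → Fin q) : ℕ := ∑ i, v i (w i)

/-- `W` is closed under mixing along the pieces `{i | pc i = p}` -/
def IsBox {n q : ℕ} (pc : Fin n → ℕ) (W : Set (Fin n → Fin q)) : Prop :=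
  ∀ c : ℕ → (Fin n → Fin q), (∀ p, c p ∈ W) → (fun i => c (pc i) i) ∈ W

/-- **Box lemma.** A nonempty box of words with `j` nonconstant pieces of at most `b` letters has
at most `q ^ (b j)` words, and gives `2 ^ j` representations of one number. -/
theorem box_lemma {n q b : ℕ} (hq : 1 ≤ q) (pc : Fin n → ℕ)
    (hb : ∀ p, #{i : Fin n | pc i = p} ≤ b) (W : Finset (Fin n → Fin q))
    (hW : IsBox pc (W : Set (Fin n → Fin q))) (hne : W.Nonempty) (v : Fin n → Fin q → ℕ)
    (hinj : Set.InjOn (val v) (W : Set (Fin n → Fin q))) (A : Set ℕ) (hA : ∀ w ∈ W, val v w ∈ A) :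
    ∃ j N, #W ≤ q ^ (b * j) ∧ 2 ^ j ≤ rep A N := by
  classical
  set J : Finset ℕ := (univ.image pc).filter
    (fun p => ∃ w ∈ W, ∃ w' ∈ W, ∃ i, pc i = p ∧ w i ≠ w' i) with hJ
  have hJn : ∀ i, pc i ∉ J → ∀ w ∈ W, ∀ w' ∈ W, w i = w' i := by
    intro i hi w hw w' hw'
    by_contra hcon
    exact hi (mem_filter.2 ⟨mem_image_of_mem _ (mem_univ _), w, hw, w', hw', i, rfl, hcon⟩)
  refine ⟨#J, ?_⟩
  obtain ⟨w₀, hw₀⟩ := hne
  -- representations
  have hex : ∀ p, ∃ w ∈ W, ∃ w' ∈ W, p ∈ J → ∃ i, pc i = p ∧ w i ≠ w' i := by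
    intro p
    by_cases hp : p ∈ J
    · obtain ⟨_, w, hw, w', hw', i, h1, h2⟩ := mem_filter.1 hp
      exact ⟨w, hw, w', hw', fun _ => ⟨i, h1, h2⟩⟩
    · exact ⟨w₀, hw₀, w₀, hw₀, fun h => absurd h hp⟩
  choose w₁ hw₁ w₂ hw₂ hdiff using hex
  set u : Fin n → Fin q := fun i => w₁ (pc i) i with hu
  set u' : Fin n → Fin q := fun i => w₂ (pc i) i with hu'
  have huW : u ∈ W := hW w₁ hw₁
  have huW' : u' ∈ W := hW w₂ hw₂
  have huu : ∀ p ∈ J, ∃ i, pc i = p ∧ u i ≠ u' i := by
    intro p hp
    obtain ⟨i, h1, h2⟩ := hdiff p hp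
    refine ⟨i, h1, ?_⟩
    simp only [hu, hu', h1]
    exact h2
  have hxW : ∀ Z : Finset ℕ, (fun i => if pc i ∈ Z then u i else u' i) ∈ W := by
    intro Z
    have := hW (fun p => if p ∈ Z then u else u') (fun p => by
      by_cases hp : p ∈ Z
      · simpa [hp] using huW
      · simpa [hp] using huW')
    have e : (fun i => if pc i ∈ Z then u i else u' i) =
        (fun i => (if pc i ∈ Z then u else u') i) := by
      funext i
      by_cases hp : pc i ∈ Z <;> simp [hp]
    rw [e]
    exact this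
  have hyW : ∀ Z : Finset ℕ, (fun i => if pc i ∈ Z then u' i else u i) ∈ W := by
    intro Z
    have := hW (fun p => if p ∈ Z then u' else u) (fun p => by
      by_cases hp : p ∈ Z
      · simpa [hp] using huW'
      · simpa [hp] using huW)
    have e : (fun i => if pc i ∈ Z then u' i else u i) =
        (fun i => (if pc i ∈ Z then u' else u) i) := by
      funext i
      by_cases hp : pc i ∈ Z <;> simp [hp]
    rw [e]
    exact this
  refine ⟨val v u + val v u', ?_, ?_⟩
  · -- size
    have h1 : #W ≤ Fintype.card ({i : Fin n // pc i ∈ J} → Fin q) := by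
      rw [← Finset.card_univ]
      refine card_le_card_of_injOn (fun w i => w i.1) (fun _ _ => mem_coe.2 (mem_univ _)) ?_
      intro w hw w' hw' h
      funext i
      by_cases hi : pc i ∈ J
      · exact congrFun h ⟨i, hi⟩
      · exact hJn i hi w hw w' hw'
    rw [Fintype.card_fun, Fintype.card_fin] at h1
    refine h1.trans (Nat.pow_le_pow_right hq ?_)
    rw [Fintype.card_subtype]
    have h2 : ({i : Fin n | pc i ∈ J} : Finset (Fin n)) ⊆
        J.biUnion (fun p => {i : Fin n | pc i = p}) := by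
      intro i hi
      rw [mem_filter] at hi
      rw [mem_biUnion]
      exact ⟨pc i, hi.2, by simp⟩
    calc #({i : Fin n | pc i ∈ J} : Finset (Fin n))
        ≤ #(J.biUnion (fun p => ({i : Fin n | pc i = p} : Finset (Fin n)))) := card_le_card h2
      _ ≤ ∑ p ∈ J, #({i : Fin n | pc i = p} : Finset (Fin n)) := card_biUnion_le
      _ ≤ ∑ _p ∈ J, b := sum_le_sum (fun p _ => hb p)
      _ = b * #J := by rw [sum_const, smul_eq_mul, Nat.mul_comm]
  · rw [← card_powerset]
    unfold rep
    rw [← Set.ncard_coe_finset]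
    refine Set.ncard_le_ncard_of_injOn (fun Z : Finset ℕ =>
      (val v (fun i => if pc i ∈ Z then u i else u' i),
        val v (fun i => if pc i ∈ Z then u' i else u i))) ?_ ?_ (rep_finite A _)
    · intro Z _
      refine ⟨hA _ (hxW Z), hA _ (hyW Z), ?_⟩
      simp only [val]
      rw [← sum_add_distrib, ← sum_add_distrib]
      refine sum_congr rfl (fun i _ => ?_)
      by_cases hp : pc i ∈ Z
      · simp [hp]
      · simp [hp, Nat.add_comm]
    · intro Z hZ Z' hZ' h
      simp only [Prod.mk.injEq] at h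
      have h1 := hinj (hxW Z) (hxW Z') h.1
      rw [mem_coe, mem_powerset] at hZ hZ'
      have key : ∀ p ∈ J, (p ∈ Z ↔ p ∈ Z') := by
        intro p hp
        obtain ⟨i, hi, hne⟩ := huu p hp
        have h2 := congrFun h1 i
        simp only [hi] at h2
        by_cases h3 : p ∈ Z <;> by_cases h4 : p ∈ Z'
        · simp [h3, h4]
        · simp [h3, h4] at h2
          exact absurd h2 hne
        · simp [h3, h4] at h2
          exact absurd h2.symm hne
        · simp [h3, h4]
      ext p
      exact ⟨fun h => (key p (hZ h)).1 h, fun h => (key p (hZ' h)).2 h⟩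

end Pool.Agent.Helper45.TY
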