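import Pool.Agent.Helper45.TY.Machine

/-!
Counting the passages over boundaries.
-/

set_option autoImplicit false

open Finset Filter

namespace Pool.Agent.Helper45.TY

variable {Q Γ : Type}

/-- the number of the piece of the cell `z`, for the boundaries `B` -/
def pcs (B : Finset ℤ) (z : ℤ) : ℕ := #{b ∈ B | b ≤ z}

theorem pcs_mono (B : Finset ℤ) : Monotone (pcs B) := by
  intro z z' h
  refine card_le_card (fun b hb => ?_)
  rw [mem_filter] at hb ⊢
  exact ⟨hb.1, hb.2.trans h⟩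

/-- the passage from `z` to `z'` crosses the boundary `b` -/
def Crosses (z z' b : ℤ) : Prop := (z < b ∧ b ≤ z') ∨ (z' < b ∧ b ≤ z)

theorem exists_crosses {B : Finset ℤ} {z z' : ℤ} (h : pcs B z ≠ pcs B z') :
    ∃ b ∈ B, Crosses z z' b := by
  by_contra hcon
  push Not at hcon
  apply h
  unfold pcs
  congr 1
  ext b
  simp only [mem_filter, and_congr_right_iff]
  intro hb
  have := hcon b hb
  unfold Crosses at this
  omega

theorem exists_cr {M : Machine Q Γ} {t : ℕ} {c c' : Config Q Γ} (h : M.Reach t c c') :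
    ∃ cr : ℤ → ℕ, (∀ B : Finset ℤ, ∑ b ∈ B, cr b ≤ t) ∧
      ∀ B : Finset ℤ, ∃ l, M.Trace (pcs B) c l c' ∧ l.length ≤ ∑ b ∈ B, cr b := by
  classical
  induction h with
  | refl c => exact ⟨fun _ => 0, by simp, fun B => ⟨[], .refl c, by simp⟩⟩
  | @cons t c c' c'' h1 _ ih =>
    obtain ⟨cr, h2, h3⟩ := ih
    refine ⟨fun b => cr b + (if Crosses c.head c'.head b then 1 else 0), ?_, ?_⟩
    · intro B
      rw [sum_add_distrib, ← card_filter]
      refine Nat.add_le_add (h2 B) ?_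
      rw [card_le_one]
      intro a ha b hb
      rw [mem_filter] at ha hb
      have := h1.abs_le
      have e1 := ha.2
      have e2 := hb.2
      unfold Crosses at e1 e2
      omega
    · intro B
      obtain ⟨l, hl, hlen⟩ := h3 B
      by_cases hp : pcs B c.head = pcs B c'.head
      · refine ⟨l, .stay h1 hp hl, hlen.trans (sum_le_sum (fun b _ => Nat.le_add_right _ _))⟩
      · refine ⟨_, .cross h1 hp hl, ?_⟩
        obtain ⟨b, hb, hcr⟩ := exists_crosses hp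
        rw [List.length_cons, sum_add_distrib]
        refine Nat.add_le_add hlen ?_
        rw [← card_filter]
        exact card_pos.2 ⟨b, mem_filter.2 ⟨hb, hcr⟩⟩

/-- the boundary in the window `j` -/
def bd (ℓ : ℕ) {K : ℕ} (β : Fin K → Fin ℓ) (j : Fin K) : ℤ := ((2 * j.1 + 1) * ℓ + (β j).1 : ℕ)

/-- the set of boundaries -/
def bds (ℓ : ℕ) {K : ℕ} (β : Fin K → Fin ℓ) : Finset ℤ := univ.image (bd ℓ β)

theorem bd_inj {ℓ K : ℕ} (β : Fin K → Fin ℓ) : Function.Injective (bd ℓ β) := by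
  have key : ∀ j j' : Fin K, j.1 < j'.1 → bd ℓ β j < bd ℓ β j' := by
    intro j j' h
    unfold bd
    have h1 := (β j).2
    have h2 := (β j').2
    have h3 : (2 * j.1 + 1) * ℓ + ℓ ≤ (2 * j'.1 + 1) * ℓ := by nlinarith
    exact_mod_cast (by omega : (2 * j.1 + 1) * ℓ + (β j).1 < (2 * j'.1 + 1) * ℓ + (β j').1)
  intro j j' h
  rcases lt_trichotomy j.1 j'.1 with h1 | h1 | h1
  · exact absurd h (key j j' h1).ne
  · exact Fin.ext h1
  · exact absurd h (key j' j h1).ne'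

/-- some choice of the boundaries is crossed at most `t / ℓ` times -/
theorem exists_choice {ℓ K t : ℕ} (hℓ : 1 ≤ ℓ) (cr : ℤ → ℕ)
    (h : ∀ B : Finset ℤ, ∑ b ∈ B, cr b ≤ t) :
    ∃ β : Fin K → Fin ℓ, ∑ b ∈ bds ℓ β, cr b ≤ t / ℓ := by
  classical
  have hmin : ∀ j : Fin K, ∃ i : Fin ℓ, ∀ i' : Fin ℓ,
      cr ((2 * j.1 + 1) * ℓ + i.1 : ℕ) ≤ cr ((2 * j.1 + 1) * ℓ + i'.1 : ℕ) := by
    intro j
    haveI : Nonempty (Fin ℓ) := ⟨⟨0, hℓ⟩⟩
    obtain ⟨i, _, hi⟩ := exists_min_image (univ : Finset (Fin ℓ))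
      (fun i => cr ((2 * j.1 + 1) * ℓ + i.1 : ℕ)) univ_nonempty
    exact ⟨i, fun i' => hi i' (mem_univ _)⟩
  choose β hβ using hmin
  refine ⟨β, ?_⟩
  rw [Nat.le_div_iff_mul_le hℓ]
  have e1 : ∑ b ∈ bds ℓ β, cr b = ∑ j : Fin K, cr (bd ℓ β j) := by
    unfold bds
    rw [sum_image (fun a _ b _ h => bd_inj β h)]
  rw [e1, sum_mul]
  have e2 : ∀ j : Fin K, cr (bd ℓ β j) * ℓ ≤
      ∑ i : Fin ℓ, cr ((2 * j.1 + 1) * ℓ + i.1 : ℕ) := by
    intro j
    calc cr (bd ℓ β j) * ℓ = ∑ _i : Fin ℓ, cr (bd ℓ β j) := by simp [Nat.mul_comm]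
      _ ≤ ∑ i : Fin ℓ, cr ((2 * j.1 + 1) * ℓ + i.1 : ℕ) := sum_le_sum (fun i _ => hβ j i)
  refine (sum_le_sum (fun j _ => e2 j)).trans ?_
  rw [← sum_product' (univ : Finset (Fin K)) (univ : Finset (Fin ℓ))
    (fun j i => cr ((2 * j.1 + 1) * ℓ + i.1 : ℕ))]
  have hinj : Set.InjOn (fun x : Fin K × Fin ℓ => (((2 * x.1.1 + 1) * ℓ + x.2.1 : ℕ) : ℤ))
      ((univ ×ˢ univ : Finset (Fin K × Fin ℓ)) : Set (Fin K × Fin ℓ)) := by
    rintro ⟨j, i⟩ _ ⟨j', i'⟩ _ hx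
    have hx' : (2 * j.1 + 1) * ℓ + i.1 = (2 * j'.1 + 1) * ℓ + i'.1 := by
      simp only at hx
      exact_mod_cast hx
    have h1 := i.2
    have h2 := i'.2
    have hj : j.1 = j'.1 := by
      rcases lt_trichotomy j.1 j'.1 with h3 | h3 | h3
      · have : (2 * j.1 + 1) * ℓ + ℓ ≤ (2 * j'.1 + 1) * ℓ := by nlinarith
        omega
      · exact h3
      · have : (2 * j'.1 + 1) * ℓ + ℓ ≤ (2 * j.1 + 1) * ℓ := by nlinarith
        omega
    rw [hj] at hx'
    exact Prod.ext (Fin.ext hj) (Fin.ext (by simp only; omega))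
  rw [← sum_image (f := cr) hinj]
  exact h _

/-- a piece contains at most `3 ℓ` cells of the input -/
theorem piece_card {n ℓ : ℕ} (hℓ : 1 ≤ ℓ) (β : Fin (n / (2 * ℓ)) → Fin ℓ) (p : ℕ) :
    #{i : Fin n | pcs (bds ℓ β) (i.1 : ℤ) = p} ≤ 3 * ℓ := by
  classical
  -- cells in the same piece are close
  have close : ∀ i i' : Fin n, i.1 ≤ i'.1 → pcs (bds ℓ β) (i.1 : ℤ) = pcs (bds ℓ β) (i'.1 : ℤ) →
      i'.1 < i.1 + 3 * ℓ := by
    intro i i' hle heq
    by_contra hcon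
    push Not at hcon
    -- a window between
    obtain ⟨m, hm1, hm2, hm3⟩ : ∃ m, m < n / (2 * ℓ) ∧ i.1 < (2 * m + 1) * ℓ ∧
        (2 * m + 1) * ℓ + ℓ ≤ i'.1 + 1 := by
      have hd := Nat.div_add_mod i.1 (2 * ℓ)
      have hmod := Nat.mod_lt i.1 (by omega : 0 < 2 * ℓ)
      set m := i.1 / (2 * ℓ) with hm
      have hi' := i'.2
      have e0 : 2 * ℓ * m = 2 * m * ℓ := by ring
      rcases Nat.lt_or_ge i.1 ((2 * m + 1) * ℓ) with h1 | h1
      · refine ⟨m, ?_, h1, ?_⟩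
        · rw [Nat.lt_iff_add_one_le, Nat.le_div_iff_mul_le (by omega)]
          have e1 : (m + 1) * (2 * ℓ) = 2 * m * ℓ + 2 * ℓ := by ring
          omega
        · have e1 : (2 * m + 1) * ℓ = 2 * m * ℓ + ℓ := by ring
          omega
      · refine ⟨m + 1, ?_, ?_, ?_⟩
        · rw [Nat.lt_iff_add_one_le, Nat.le_div_iff_mul_le (by omega)]
          have e1 : (m + 1 + 1) * (2 * ℓ) = 2 * m * ℓ + 4 * ℓ := by ring
          have e2 : (2 * m + 1) * ℓ = 2 * m * ℓ + ℓ := by ring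
          omega
        · have e1 : (2 * (m + 1) + 1) * ℓ = 2 * m * ℓ + 3 * ℓ := by ring
          omega
        · have e1 : (2 * (m + 1) + 1) * ℓ = 2 * m * ℓ + 3 * ℓ := by ring
          have e2 : (2 * m + 1) * ℓ = 2 * m * ℓ + ℓ := by ring
          omega
    have hb := (β ⟨m, hm1⟩).2
    have hb1 : ((i.1 : ℕ) : ℤ) < bd ℓ β ⟨m, hm1⟩ := by
      unfold bd
      exact_mod_cast (by omega : i.1 < (2 * m + 1) * ℓ + (β ⟨m, hm1⟩).1)
    have hb2 : bd ℓ β ⟨m, hm1⟩ ≤ ((i'.1 : ℕ) : ℤ) := by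
      unfold bd
      exact_mod_cast (by omega : (2 * m + 1) * ℓ + (β ⟨m, hm1⟩).1 ≤ i'.1)
    have hlt : pcs (bds ℓ β) (i.1 : ℤ) < pcs (bds ℓ β) (i'.1 : ℤ) := by
      refine card_lt_card ?_
      rw [Finset.ssubset_iff_of_subset]
      · refine ⟨bd ℓ β ⟨m, hm1⟩, ?_, ?_⟩
        · rw [mem_filter]
          exact ⟨mem_image_of_mem _ (mem_univ _), hb2⟩
        · rw [mem_filter]
          rintro ⟨_, h⟩
          omega
      · intro b hb'
        rw [mem_filter] at hb' ⊢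
        refine ⟨hb'.1, hb'.2.trans ?_⟩
        exact_mod_cast hle
    omega
  rcases (({i : Fin n | pcs (bds ℓ β) (i.1 : ℤ) = p} : Finset (Fin n))).eq_empty_or_nonempty
    with h | h
  · rw [h]
    simp
  · obtain ⟨i₀, hi₀, hmin⟩ := exists_min_image _ (fun i : Fin n => i.1) h
    rw [mem_filter] at hi₀
    rw [← card_range (3 * ℓ)]
    refine card_le_card_of_injOn (fun i => i.1 - i₀.1) ?_ ?_
    · intro i hi
      have hi' : i₀.1 ≤ i.1 := hmin i hi
      rw [mem_coe, mem_filter] at hi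
      have := close i₀ i hi' (by rw [hi₀.2, hi.2])
      rw [mem_coe, mem_range]
      show i.1 - i₀.1 < 3 * ℓ
      omega
    · intro i hi i' hi' heq
      have h1 : i₀.1 ≤ i.1 := hmin i hi
      have h2 : i₀.1 ≤ i'.1 := hmin i' hi'
      have h3 : i.1 - i₀.1 = i'.1 - i₀.1 := heq
      exact Fin.ext (by omega)

end Pool.Agent.Helper45.TY
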