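import Pool.Agent.Helper45.TY.Box
import Pool.Agent.Helper45.TY.Crossing

/-!
One-tape machines: the accepted words are covered by few boxes.
-/

set_option autoImplicit false

open Finset Filter

namespace Pool.Agent.Helper45.TY

variable {Q Γ : Type}

/-- The initial tape: the cell `z` contains `enc z (some a)` if `a` is the letter with number `z`
of the word, and `enc z none` outside of the word. -/
def inputTape {n q : ℕ} (enc : ℤ → Option (Fin q) → Γ) (w : Fin n → Fin q) (z : ℤ) : Γ :=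
  enc z (if h : 0 ≤ z ∧ z < n then some (w ⟨z.toNat, by omega⟩) else none)

/-- the initial configuration on the input `w` -/
def Machine.init (M : Machine Q Γ) {n q : ℕ} (enc : ℤ → Option (Fin q) → Γ)
    (w : Fin n → Fin q) : Config Q Γ :=
  ⟨M.start, 0, inputTape enc w⟩

/-- the words accepted with given boundaries and itinerary -/
def Machine.cls (M : Machine Q Γ) {n q : ℕ} (enc : ℤ → Option (Fin q) → Γ) (B : Finset ℤ)
    (l : List (Bool × Q)) : Set (Fin n → Fin q) :=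
  {w | ∃ f, M.Trace (pcs B) (M.init enc w) l f ∧ M.accept f.state}

theorem isBox_cls (M : Machine Q Γ) {n q : ℕ} (enc : ℤ → Option (Fin q) → Γ) (B : Finset ℤ)
    (l : List (Bool × Q)) :
    IsBox (fun i : Fin n => pcs B (i.1 : ℤ)) (M.cls enc B l) := by
  intro c hc
  choose f hf using hc
  obtain ⟨j', hj'⟩ := trace_mix (pcs_mono B) l (fun p => M.init enc (c p)) f (pcs B 0)
    (fun p => (hf p).1) (fun p => rfl)
  refine ⟨mix (pcs B) j' f, ?_, (hf j').2⟩
  have e : M.init enc (fun i : Fin n => c (pcs B (i.1 : ℤ)) i) =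
      mix (pcs B) (pcs B 0) (fun p => M.init enc (c p)) := by
    ext z
    · rfl
    · rfl
    · simp only [Machine.init, mix, inputTape]
      by_cases h : 0 ≤ z ∧ z < n
      · rw [dif_pos h, dif_pos h]
        have : ((z.toNat : ℕ) : ℤ) = z := Int.toNat_of_nonneg h.1
        simp only [this]
      · rw [dif_neg h, dif_neg h]
  rw [e]
  exact hj'

theorem cls_accepts (M : Machine Q Γ) {n q : ℕ} (enc : ℤ → Option (Fin q) → Γ) (B : Finset ℤ)
    (l : List (Bool × Q)) {w : Fin n → Fin q} (h : w ∈ M.cls enc B l) :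
    M.Accepts (M.init enc w) := by
  obtain ⟨f, hf, hacc⟩ := h
  obtain ⟨t, ht⟩ := hf.reach
  exact ⟨t, f, ht, hacc⟩

theorem exists_cls (M : Machine Q Γ) {n q T ℓ : ℕ} (hℓ : 1 ≤ ℓ)
    (enc : ℤ → Option (Fin q) → Γ) {w : Fin n → Fin q} (h : M.AcceptsIn T (M.init enc w)) :
    ∃ (β : Fin (n / (2 * ℓ)) → Fin ℓ) (l : List (Bool × Q)), l.length ≤ T / ℓ ∧
      w ∈ M.cls enc (bds ℓ β) l := by
  obtain ⟨t, ht, c', hc, hacc⟩ := h
  obtain ⟨cr, h1, h2⟩ := exists_cr hc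
  obtain ⟨β, hβ⟩ := exists_choice (K := n / (2 * ℓ)) hℓ cr (fun B => (h1 B).trans ht)
  obtain ⟨l, hl, hlen⟩ := h2 (bds ℓ β)
  exact ⟨β, l, hlen.trans hβ, c', hl, hacc⟩

theorem list_ext_of_le {α : Type} {m : ℕ} {l l' : List α} (h : l.length ≤ m) (h' : l'.length ≤ m)
    (he : ∀ i : Fin m, l[i.1]? = l'[i.1]?) : l = l' := by
  refine List.ext_getElem? (fun i => ?_)
  rcases Nat.lt_or_ge i m with hi | hi
  · exact he ⟨i, hi⟩
  · rw [List.getElem?_eq_none (by omega), List.getElem?_eq_none (by omega)]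

/-- **Counting.** -/
theorem count [Fintype Q] (M : Machine Q Γ) {n q T : ℕ} (hq : 1 ≤ q)
    (enc : ℤ → Option (Fin q) → Γ) (v : Fin n → Fin q → ℕ) (A : Set ℕ)
    (hA : ∀ w, M.Accepts (M.init enc w) → val v w ∈ A)
    (hinj : Set.InjOn (val v) {w | M.Accepts (M.init enc w)})
    (hne : {w : Fin n → Fin q | M.AcceptsIn T (M.init enc w)}.Nonempty) {ℓ : ℕ} (hℓ : 1 ≤ ℓ) :
    ∃ j N, {w : Fin n → Fin q | M.AcceptsIn T (M.init enc w)}.ncard ≤
      ℓ ^ (n / (2 * ℓ)) * (2 * Fintype.card Q + 1) ^ (T / ℓ) * q ^ (3 * ℓ * j) ∧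
      2 ^ j ≤ rep A N := by
  classical
  -- the accepted words
  obtain ⟨S, hS⟩ : ∃ S : Finset (Fin n → Fin q),
      ∀ w, w ∈ S ↔ M.AcceptsIn T (M.init enc w) :=
    ⟨Finset.univ.filter (fun w => M.AcceptsIn T (M.init enc w)), fun w => by simp⟩
  have hScard : {w : Fin n → Fin q | M.AcceptsIn T (M.init enc w)}.ncard = #S := by
    rw [← Set.ncard_coe_finset]
    congr 1
    ext w
    rw [mem_coe, hS]
    rfl
  have hSne : S.Nonempty := by
    obtain ⟨w, hw⟩ := hne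
    exact ⟨w, (hS w).2 hw⟩
  have hex : ∀ w : Fin n → Fin q, ∃ (β : Fin (n / (2 * ℓ)) → Fin ℓ) (l : List (Bool × Q)),
      w ∈ S → l.length ≤ T / ℓ ∧ w ∈ M.cls enc (bds ℓ β) l := by
    intro w
    by_cases hw : w ∈ S
    · obtain ⟨β, l, h⟩ := exists_cls M hℓ enc ((hS w).1 hw)
      exact ⟨β, l, fun _ => h⟩
    · exact ⟨fun _ => ⟨0, hℓ⟩, [], fun h => absurd h hw⟩
  choose β l hβl using hex
  set g : (Fin n → Fin q) → (Fin (n / (2 * ℓ)) → Fin ℓ) × (Fin (T / ℓ) → Option (Bool × Q)) :=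
    fun w => (β w, fun i => (l w)[i.1]?) with hg
  -- the largest class
  obtain ⟨y, hy, hymax⟩ := exists_max_image (S.image g) (fun y => #{w ∈ S | g w = y})
    (hSne.image g)
  have h1 : #S ≤ #{w ∈ S | g w = y} * #(S.image g) :=
    card_le_mul_card_image S _ (fun a ha => hymax a ha)
  have h2 : #(S.image g) ≤ ℓ ^ (n / (2 * ℓ)) * (2 * Fintype.card Q + 1) ^ (T / ℓ) := by
    refine (card_le_univ _).trans ?_
    rw [Fintype.card_prod, Fintype.card_fun, Fintype.card_fun, Fintype.card_option,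
      Fintype.card_prod, Fintype.card_bool, Fintype.card_fin, Fintype.card_fin, Fintype.card_fin]
  obtain ⟨w₀, hw₀, rfl⟩ := mem_image.1 hy
  set W : Finset (Fin n → Fin q) := Finset.univ.filter
    (fun w => w ∈ M.cls enc (bds ℓ (β w₀)) (l w₀)) with hWdef
  have hWmem : ∀ w, w ∈ W ↔ w ∈ M.cls enc (bds ℓ (β w₀)) (l w₀) := fun w => by
    rw [hWdef, mem_filter]
    simp
  have h3 : #{w ∈ S | g w = g w₀} ≤ #W := by
    refine card_le_card (fun w hw => ?_)
    rw [mem_filter] at hw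
    obtain ⟨hwS, hgw⟩ := hw
    rw [hWmem]
    have e1 : β w = β w₀ := (Prod.ext_iff.1 hgw).1
    have e2 : l w = l w₀ := list_ext_of_le (hβl w hwS).1 (hβl w₀ hw₀).1
      (fun i => congrFun (Prod.ext_iff.1 hgw).2 i)
    rw [← e1, ← e2]
    exact (hβl w hwS).2
  have hWset : (W : Set (Fin n → Fin q)) = M.cls enc (bds ℓ (β w₀)) (l w₀) := by
    ext w
    exact hWmem w
  obtain ⟨j, N, h4, h5⟩ := box_lemma (b := 3 * ℓ) hq
    (fun i : Fin n => pcs (bds ℓ (β w₀)) (i.1 : ℤ)) (piece_card hℓ (β w₀)) W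
    (by rw [hWset]; exact isBox_cls M enc _ _) ⟨w₀, (hWmem w₀).2 (hβl w₀ hw₀).2⟩ v
    (hinj.mono (fun w hw => cls_accepts M enc _ _ ((hWmem w).1 hw))) A
    (fun w hw => hA w (cls_accepts M enc _ _ ((hWmem w).1 hw)))
  refine ⟨j, N, ?_, h5⟩
  rw [hScard]
  calc #S ≤ #{w ∈ S | g w = g w₀} * #(S.image g) := h1
    _ ≤ q ^ (3 * ℓ * j) * (ℓ ^ (n / (2 * ℓ)) * (2 * Fintype.card Q + 1) ^ (T / ℓ)) :=
      Nat.mul_le_mul (h3.trans h4) h2
    _ = _ := by ring

end Pool.Agent.Helper45.TY
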