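import Mathlib

/-!
Graph-directed finite sets: a finite set which is built in `n` levels, at each level from at most
`s` patterns, every pattern being a disjoint union of at most `Q` translates of patterns of the
previous level, has numbers with many representations as soon as it is exponentially large in `n`.
-/

set_option autoImplicit false

open Finset

namespace Pool.Agent.Helper45.TY

/-- the translate `t + P` -/
def shift (t : ℕ) (P : Finset ℕ) : Finset ℕ := P.image (fun x => t + x)

/-- `P` is a disjoint union of at most `Q` translates of members of `F` -/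
def Glue (Q : ℕ) (F : Finset (Finset ℕ)) (P : Finset ℕ) : Prop :=
  ∃ T : Finset (ℕ × Finset ℕ), #T ≤ Q ∧ (∀ e ∈ T, e.2 ∈ F) ∧
    (∀ e ∈ T, ∀ e' ∈ T, e ≠ e' → Disjoint (shift e.1 e.2) (shift e'.1 e'.2)) ∧
    P = T.biUnion (fun e => shift e.1 e.2)

/-- the number of ordered pairs of elements of `P` with sum `n` -/
def repF (P : Finset ℕ) (n : ℕ) : ℕ := #{p ∈ P ×ˢ P | p.1 + p.2 = n}

theorem mem_shift {t x : ℕ} {P : Finset ℕ} : x ∈ shift t P ↔ ∃ y ∈ P, t + y = x := by
  simp [shift]

theorem add_mem_shift {t y : ℕ} {P : Finset ℕ} (h : y ∈ P) : t + y ∈ shift t P :=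
  mem_shift.2 ⟨y, h, rfl⟩

theorem card_shift (t : ℕ) (P : Finset ℕ) : #(shift t P) = #P :=
  card_image_of_injective _ (fun _ _ h => Nat.add_left_cancel h)

theorem shift_shift (t u : ℕ) (P : Finset ℕ) : shift t (shift u P) = shift (t + u) P := by
  simp only [shift, image_image]
  congr 1
  funext x
  simp [Nat.add_assoc]

theorem shift_mono {t : ℕ} {P P' : Finset ℕ} (h : P ⊆ P') : shift t P ⊆ shift t P' :=
  image_subset_image h

/-- one translate -/
theorem rep_le_of_shift {P P' : Finset ℕ} {t : ℕ} (h : shift t P' ⊆ P) (n : ℕ) :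
    repF P' n ≤ repF P (n + 2 * t) := by
  refine card_le_card_of_injOn (fun p => (t + p.1, t + p.2)) ?_ ?_
  · intro p hp
    simp only [coe_filter, mem_product, Set.mem_setOf_eq] at hp ⊢
    exact ⟨⟨h (add_mem_shift hp.1.1), h (add_mem_shift hp.1.2)⟩, by omega⟩
  · intro p _ q _ hpq
    simp only [Prod.mk.injEq, Nat.add_left_cancel_iff] at hpq
    exact Prod.ext hpq.1 hpq.2

/-- two disjoint translates: every representation of `n` gives two of `n + t + t'` -/
theorem two_rep_le {P P' : Finset ℕ} {t t' : ℕ} (h : shift t P' ⊆ P) (h' : shift t' P' ⊆ P)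
    (hd : Disjoint (shift t P') (shift t' P')) (n : ℕ) :
    2 * repF P' n ≤ repF P (n + t + t') := by
  have e1 : #(({p ∈ P' ×ˢ P' | p.1 + p.2 = n}).image (fun p => (t + p.1, t' + p.2))) = repF P' n :=
    card_image_of_injective _ (fun p q hpq => by
      simp only [Prod.mk.injEq, Nat.add_left_cancel_iff] at hpq
      exact Prod.ext hpq.1 hpq.2)
  have e2 : #(({p ∈ P' ×ˢ P' | p.1 + p.2 = n}).image (fun p => (t' + p.1, t + p.2))) = repF P' n :=
    card_image_of_injective _ (fun p q hpq => by
      simp only [Prod.mk.injEq, Nat.add_left_cancel_iff] at hpq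
      exact Prod.ext hpq.1 hpq.2)
  have hdis : Disjoint (({p ∈ P' ×ˢ P' | p.1 + p.2 = n}).image (fun p => (t + p.1, t' + p.2)))
      (({p ∈ P' ×ˢ P' | p.1 + p.2 = n}).image (fun p => (t' + p.1, t + p.2))) := by
    rw [Finset.disjoint_left]
    intro x hx hx'
    simp only [mem_image, mem_filter, mem_product] at hx hx'
    obtain ⟨p, hp, rfl⟩ := hx
    obtain ⟨q, hq, hpq⟩ := hx'
    simp only [Prod.mk.injEq] at hpq
    refine Finset.disjoint_left.1 hd (add_mem_shift hp.1.1) ?_
    rw [← hpq.1]
    exact add_mem_shift hq.1.1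
  have hsub : (({p ∈ P' ×ˢ P' | p.1 + p.2 = n}).image (fun p => (t + p.1, t' + p.2))) ∪
      (({p ∈ P' ×ˢ P' | p.1 + p.2 = n}).image (fun p => (t' + p.1, t + p.2))) ⊆
      {p ∈ P ×ˢ P | p.1 + p.2 = n + t + t'} := by
    intro x hx
    simp only [mem_union, mem_image, mem_filter, mem_product] at hx ⊢
    rcases hx with ⟨p, hp, rfl⟩ | ⟨p, hp, rfl⟩
    · exact ⟨⟨h (add_mem_shift hp.1.1), h' (add_mem_shift hp.1.2)⟩, by simp only; omega⟩
    · exact ⟨⟨h' (add_mem_shift hp.1.1), h (add_mem_shift hp.1.2)⟩, by simp only; omega⟩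
  have := card_le_card hsub
  rw [card_union_of_disjoint hdis, e1, e2] at this
  unfold repF at *
  omega

theorem one_le_of_nonempty {P : Finset ℕ} (h : P.Nonempty) {R : ℝ}
    (hR : ∀ n, (repF P n : ℝ) ≤ R) : 1 ≤ R := by
  obtain ⟨x, hx⟩ := h
  have : 1 ≤ repF P (x + x) := card_pos.2 ⟨(x, x), by simp [hx]⟩
  exact le_trans (by exact_mod_cast this) (hR (x + x))

/-- the main inequality, for levels with at most `B` translates -/
theorem main_ineq {s B : ℕ} (hB : 1 ≤ B) (F : ℕ → Finset (Finset ℕ)) (k : ℕ)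
    (h0 : ∀ P ∈ F 0, #P ≤ 1) (hs : ∀ i < k, #(F i) ≤ s)
    (hF : ∀ i < k, ∀ P ∈ F (i + 1), Glue B (F i) P) (P : Finset ℕ) (hP : P ∈ F k) (R : ℝ)
    (hR : ∀ n, (repF P n : ℝ) ≤ R) :
    (#P : ℝ) ≤ (s : ℝ) ^ k * R ^ (Real.logb 2 B) := by
  induction k generalizing P R with
  | zero =>
    rcases P.eq_empty_or_nonempty with h | h
    · subst h
      have hR0 : 0 ≤ R := le_trans (by positivity) (hR 0)
      simp only [card_empty, Nat.cast_zero, pow_zero, one_mul]
      positivity
    · have h1 := one_le_of_nonempty h hR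
      have h2 : (1 : ℝ) ≤ R ^ (Real.logb 2 B) :=
        Real.one_le_rpow h1 (Real.logb_nonneg (by norm_num) (by exact_mod_cast hB))
      have h3 : (#P : ℝ) ≤ 1 := by exact_mod_cast h0 P hP
      simpa using h3.trans h2
  | succ k ih =>
    have hR0 : 0 ≤ R := le_trans (by positivity) (hR 0)
    obtain ⟨T, hT, hTF, hdis, rfl⟩ := hF k (Nat.lt_succ_self k) P hP
    have hsub : ∀ e ∈ T, shift e.1 e.2 ⊆ T.biUnion (fun e => shift e.1 e.2) := fun e he =>
      subset_biUnion_of_mem (fun e : ℕ × Finset ℕ => shift e.1 e.2) he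
    -- sum over types
    have key : ∀ P' ∈ F k, (#{e ∈ T | e.2 = P'} : ℝ) * #P' ≤
        (s : ℝ) ^ k * R ^ (Real.logb 2 B) := by
      intro P' hP'
      have hih := fun R' hR' => ih (fun i hi => hs i (by omega)) (fun i hi => hF i (by omega))
        P' hP' R' hR'
      rcases Nat.lt_or_ge 1 #{e ∈ T | e.2 = P'} with h1 | h1
      · obtain ⟨e, he, e', he', hne⟩ := one_lt_card.1 h1
        rw [mem_filter] at he he'
        have hR2 : ∀ n, (repF P' n : ℝ) ≤ R / 2 := by
          intro n
          have := two_rep_le (P := T.biUnion (fun e => shift e.1 e.2)) (P' := P') (t := e.1)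
            (t' := e'.1) (by rw [← he.2]; exact hsub e he.1) (by rw [← he'.2]; exact hsub e' he'.1)
            (by
              have := hdis e he.1 e' he'.1 hne
              rwa [he.2, he'.2] at this) n
          have h2 := hR (n + e.1 + e'.1)
          have h3 : (2 : ℝ) * repF P' n ≤ repF (T.biUnion (fun e => shift e.1 e.2))
            (n + e.1 + e'.1) := by exact_mod_cast this
          linarith
        have h4 := hih _ hR2
        have hBpos : (0 : ℝ) < B := by exact_mod_cast hB
        have h5 : (R / 2) ^ (Real.logb 2 B) = R ^ (Real.logb 2 B) / B := by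
          rw [Real.div_rpow hR0 (by norm_num), Real.rpow_logb (by norm_num) (by norm_num) hBpos]
        rw [h5] at h4
        have h6 : (#{e ∈ T | e.2 = P'} : ℝ) ≤ B := by
          exact_mod_cast (card_filter_le _ _).trans hT
        calc (#{e ∈ T | e.2 = P'} : ℝ) * #P'
            ≤ B * ((s : ℝ) ^ k * (R ^ (Real.logb 2 B) / B)) :=
              mul_le_mul h6 h4 (by positivity) (by positivity)
          _ = (s : ℝ) ^ k * R ^ (Real.logb 2 B) := by field_simp
      · rcases Nat.eq_zero_or_pos #{e ∈ T | e.2 = P'} with h0' | h0'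
        · rw [h0']
          simp only [Nat.cast_zero, zero_mul]
          positivity
        · have h7 : #{e ∈ T | e.2 = P'} = 1 := by omega
          obtain ⟨e, he⟩ := card_pos.1 h0'
          rw [mem_filter] at he
          have hR1 : ∀ n, (repF P' n : ℝ) ≤ R := by
            intro n
            have := rep_le_of_shift (P := T.biUnion (fun e => shift e.1 e.2)) (P' := P')
              (t := e.1) (by rw [← he.2]; exact hsub e he.1) n
            exact le_trans (by exact_mod_cast this) (hR _)
          rw [h7]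
          simpa using hih _ hR1
    have hcard : #(T.biUnion (fun e => shift e.1 e.2)) = ∑ P' ∈ F k, #{e ∈ T | e.2 = P'} * #P' := by
      rw [card_biUnion (fun e he e' he' hne => hdis e he e' he' hne)]
      rw [← sum_fiberwise_of_maps_to (g := fun e : ℕ × Finset ℕ => e.2) hTF]
      refine sum_congr rfl (fun P' _ => ?_)
      rw [← smul_eq_mul, ← sum_const]
      refine sum_congr rfl (fun e he => ?_)
      rw [card_shift, (mem_filter.1 he).2]
    rw [hcard]
    push_cast
    calc ∑ P' ∈ F k, (#{e ∈ T | e.2 = P'} : ℝ) * #P'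
        ≤ ∑ _P' ∈ F k, (s : ℝ) ^ k * R ^ (Real.logb 2 B) := sum_le_sum key
      _ = #(F k) * ((s : ℝ) ^ k * R ^ (Real.logb 2 B)) := by simp
      _ ≤ s * ((s : ℝ) ^ k * R ^ (Real.logb 2 B)) := by
          refine mul_le_mul_of_nonneg_right ?_ (by positivity)
          exact_mod_cast hs k (Nat.lt_succ_self k)
      _ = (s : ℝ) ^ (k + 1) * R ^ (Real.logb 2 B) := by ring

end Pool.Agent.Helper45.TY
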