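import Mathlib

/-!
Nondeterministic one-tape Turing machines and their itineraries relative to a partition of the
tape into intervals.
-/

set_option autoImplicit false

open Finset Filter

namespace Pool.Agent.Helper45.TY

/-- moves of the head -/
inductive Dir
  | left
  | stay
  | right

/-- the displacement of a move -/
def Dir.shift : Dir → ℤ
  | .left => -1
  | .stay => 0
  | .right => 1

/-- A nondeterministic one-tape Turing machine with states `Q` and tape alphabet `Γ`:
`step p g p' g' d` means that in state `p` reading `g` it may write `g'`, move by `d` and pass to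
state `p'`. -/
structure Machine (Q Γ : Type) where
  step : Q → Γ → Q → Γ → Dir → Prop
  start : Q
  accept : Q → Prop

/-- a configuration: state, position of the head, contents of the two-sided tape -/
@[ext]
structure Config (Q Γ : Type) where
  state : Q
  head : ℤ
  tape : ℤ → Γ

variable {Q Γ : Type}

/-- one step of the machine -/
def Machine.Next (M : Machine Q Γ) (c c' : Config Q Γ) : Prop :=
  ∃ d : Dir, M.step c.state (c.tape c.head) c'.state (c'.tape c.head) d ∧
    c'.head = c.head + d.shift ∧ ∀ z, z ≠ c.head → c'.tape z = c.tape z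

/-- `M.Reach t c c'`: the machine can pass from `c` to `c'` in exactly `t` steps -/
inductive Machine.Reach (M : Machine Q Γ) : ℕ → Config Q Γ → Config Q Γ → Prop
  | refl (c : Config Q Γ) : Machine.Reach M 0 c c
  | cons {t : ℕ} {c c' c'' : Config Q Γ} : M.Next c c' → Machine.Reach M t c' c'' →
      Machine.Reach M (t + 1) c c''

/-- the machine accepts from `c` in at most `T` steps -/
def Machine.AcceptsIn (M : Machine Q Γ) (T : ℕ) (c : Config Q Γ) : Prop :=
  ∃ t ≤ T, ∃ c', M.Reach t c c' ∧ M.accept c'.state

/-- the machine accepts from `c` -/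
def Machine.Accepts (M : Machine Q Γ) (c : Config Q Γ) : Prop :=
  ∃ t, ∃ c', M.Reach t c c' ∧ M.accept c'.state

theorem Machine.AcceptsIn.accepts {M : Machine Q Γ} {T : ℕ} {c : Config Q Γ}
    (h : M.AcceptsIn T c) : M.Accepts c := by
  obtain ⟨t, _, c', h⟩ := h
  exact ⟨t, c', h⟩

theorem Machine.Next.abs_le {M : Machine Q Γ} {c c' : Config Q Γ} (h : M.Next c c') :
    c'.head ≤ c.head + 1 ∧ c.head ≤ c'.head + 1 := by
  obtain ⟨d, _, h, _⟩ := h
  cases d <;> simp [Dir.shift] at h <;> omega

/-- `M.Trace pc c l c'`: a computation from `c` to `c'` with itinerary `l`: the list of the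
directions (`true` = to the right) and new states at the passages between different pieces. -/
inductive Machine.Trace (M : Machine Q Γ) (pc : ℤ → ℕ) :
    Config Q Γ → List (Bool × Q) → Config Q Γ → Prop
  | refl (c : Config Q Γ) : Machine.Trace M pc c [] c
  | stay {c c' c'' : Config Q Γ} {l : List (Bool × Q)} : M.Next c c' → pc c.head = pc c'.head →
      Machine.Trace M pc c' l c'' → Machine.Trace M pc c l c''
  | cross {c c' c'' : Config Q Γ} {l : List (Bool × Q)} : M.Next c c' → pc c.head ≠ pc c'.head →
      Machine.Trace M pc c' l c'' →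
      Machine.Trace M pc c ((decide (c.head < c'.head), c'.state) :: l) c''

theorem Machine.Trace.reach {M : Machine Q Γ} {pc : ℤ → ℕ} {c c' : Config Q Γ}
    {l : List (Bool × Q)} (h : M.Trace pc c l c') : ∃ t, M.Reach t c c' := by
  induction h with
  | refl c => exact ⟨0, .refl c⟩
  | stay h _ _ ih =>
    obtain ⟨t, ht⟩ := ih
    exact ⟨t + 1, .cons h ht⟩
  | cross h _ _ ih =>
    obtain ⟨t, ht⟩ := ih
    exact ⟨t + 1, .cons h ht⟩

/-- the first phase of a computation: the head stays in its piece -/
inductive Machine.Inside (M : Machine Q Γ) (pc : ℤ → ℕ) : Config Q Γ → Config Q Γ → Prop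
  | refl (c : Config Q Γ) : Machine.Inside M pc c c
  | cons {c c' c'' : Config Q Γ} : M.Next c c' → pc c.head = pc c'.head →
      Machine.Inside M pc c' c'' → Machine.Inside M pc c c''

theorem Machine.Inside.trace {M : Machine Q Γ} {pc : ℤ → ℕ} {c c' c'' : Config Q Γ}
    {l : List (Bool × Q)} (h : M.Inside pc c c') (h' : M.Trace pc c' l c'') :
    M.Trace pc c l c'' := by
  induction h with
  | refl c => exact h'
  | cons h1 h2 _ ih => exact .stay h1 h2 (ih h')

theorem Machine.Inside.piece {M : Machine Q Γ} {pc : ℤ → ℕ} {c c' : Config Q Γ}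
    (h : M.Inside pc c c') : pc c'.head = pc c.head := by
  induction h with
  | refl c => rfl
  | cons _ h2 _ ih => rw [ih, h2]

theorem Machine.Inside.tape {M : Machine Q Γ} {pc : ℤ → ℕ} {c c' : Config Q Γ}
    (h : M.Inside pc c c') : ∀ z, pc z ≠ pc c.head → c'.tape z = c.tape z := by
  induction h with
  | refl c => exact fun _ _ => rfl
  | cons h1 h2 _ ih =>
    intro z hz
    rw [ih z (by rwa [← h2])]
    obtain ⟨d, _, _, h3⟩ := h1
    exact h3 z (fun h => hz (by rw [h]))

theorem Machine.Trace.nil {M : Machine Q Γ} {pc : ℤ → ℕ} {c c' : Config Q Γ}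
    (h : M.Trace pc c [] c') : M.Inside pc c c' := by
  generalize hl : ([] : List (Bool × Q)) = l at h
  induction h with
  | refl c => exact .refl c
  | stay h1 h2 _ ih => exact .cons h1 h2 (ih hl)
  | cross _ _ _ _ => exact absurd hl (by simp)

theorem Machine.Trace.uncons {M : Machine Q Γ} {pc : ℤ → ℕ} {c c' : Config Q Γ}
    {x : Bool × Q} {l : List (Bool × Q)} (h : M.Trace pc c (x :: l) c') :
    ∃ d e : Config Q Γ, M.Inside pc c d ∧ M.Next d e ∧ pc d.head ≠ pc e.head ∧
      x = (decide (d.head < e.head), e.state) ∧ M.Trace pc e l c' := by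
  generalize hl : x :: l = l' at h
  induction h with
  | refl c => exact absurd hl (by simp)
  | stay h1 h2 _ ih =>
    obtain ⟨d, e, h3, h4⟩ := ih hl
    exact ⟨d, e, .cons h1 h2 h3, h4⟩
  | @cross c1 c2 c3 l1 h1 h2 h3 _ =>
    rw [List.cons.injEq] at hl
    obtain ⟨rfl, rfl⟩ := hl
    exact ⟨c1, c2, .refl _, h1, h2, rfl, h3⟩

/-- The mixture of the configurations `c p`: on the piece `p` the tape of `c p`, state and head of
the configuration `c j`. -/
def mix (pc : ℤ → ℕ) (j : ℕ) (c : ℕ → Config Q Γ) : Config Q Γ :=
  ⟨(c j).state, (c j).head, fun z => (c (pc z)).tape z⟩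

/-- one step in the piece `j` is a step of the mixture -/
theorem next_mix {M : Machine Q Γ} {pc : ℤ → ℕ} {j : ℕ} {c c' : ℕ → Config Q Γ}
    (hj : pc (c j).head = j) (h : M.Next (c j) (c' j))
    (hc : ∀ p ≠ j, ∀ z, pc z = p → (c' p).tape z = (c p).tape z) :
    M.Next (mix pc j c) (mix pc j c') := by
  obtain ⟨d, h1, h2, h3⟩ := h
  refine ⟨d, ?_, h2, ?_⟩
  · simp only [mix, hj]
    exact h1
  · intro z hz
    simp only [mix] at hz ⊢
    by_cases hp : pc z = j
    · rw [hp]
      exact h3 z hz
    · exact hc (pc z) hp z rfl

/-- a phase in the piece `j` is a phase of the mixture -/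
theorem inside_mix {M : Machine Q Γ} {pc : ℤ → ℕ} {j : ℕ} {a b : Config Q Γ}
    (h : M.Inside pc a b) : ∀ c c' : ℕ → Config Q Γ, c j = a → c' j = b → pc a.head = j →
    (∀ p ≠ j, ∀ z, pc z = p → (c' p).tape z = (c p).tape z) →
    M.Inside pc (mix pc j c) (mix pc j c') := by
  induction h with
  | refl a =>
    intro c c' h1 h2 h3 h4
    have : mix pc j c = mix pc j c' := by
      ext z
      · simp [mix, h1, h2]
      · simp [mix, h1, h2]
      · simp only [mix]
        by_cases hp : pc z = j
        · rw [hp, h1, h2]
        · exact (h4 (pc z) hp z rfl).symm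
    rw [this]
    exact .refl _
  | @cons a1 a2 a3 h1 h2 _ ih =>
    intro c c' hc hc' h3 h4
    have key : M.Next (mix pc j c) (mix pc j (Function.update c j a2)) := by
      refine next_mix (by rw [hc]; exact h3) ?_ ?_
      · rw [hc, Function.update_self]
        exact h1
      · intro p hp z _
        rw [Function.update_of_ne hp]
    refine .cons key ?_ (ih (Function.update c j a2) c' (by simp) hc' (by rw [← h2]; exact h3) ?_)
    · simp only [mix, hc, Function.update_self]
      exact h2
    · intro p hp z hz
      rw [Function.update_of_ne hp]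
      exact h4 p hp z hz

/-- **Mixing lemma.** Computations with the same itinerary can be mixed. -/
theorem trace_mix {M : Machine Q Γ} {pc : ℤ → ℕ} (hpc : Monotone pc) (l : List (Bool × Q)) :
    ∀ (c f : ℕ → Config Q Γ) (j : ℕ), (∀ p, M.Trace pc (c p) l (f p)) →
      (∀ p, pc (c p).head = j) →
      ∃ j', M.Trace pc (mix pc j c) l (mix pc j' f) := by
  induction l with
  | nil =>
    intro c f j h hj
    refine ⟨j, (inside_mix (j := j) (h j).nil c f rfl rfl (hj j) ?_).trace (.refl _)⟩
    intro p hp z hz
    exact (h p).nil.tape z (by rw [hz, hj p]; exact hp)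
  | cons x l ih =>
    intro c f j h hj
    choose d e h1 h2 h3 h4 h5 using fun p => (h p).uncons
    have hd : ∀ p, pc (d p).head = j := fun p => by rw [(h1 p).piece, hj p]
    -- the new positions and states agree
    have hhead : ∀ p p', (e p).head = (e p').head ∧ (e p).state = (e p').state := by
      intro p p'
      have e1 := h4 p
      have e2 := h4 p'
      rw [e1] at e2
      rw [Prod.mk.injEq] at e2
      refine ⟨?_, e2.2⟩
      have hdir : ((d p).head < (e p).head) ↔ ((d p').head < (e p').head) := by
        simpa using e2.1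
      have a1 := (h2 p).abs_le
      have a2 := (h2 p').abs_le
      have n1 : (d p).head ≠ (e p).head := fun h => h3 p (by rw [h])
      have n2 : (d p').head ≠ (e p').head := fun h => h3 p' (by rw [h])
      have m1 : ∀ u v, pc (d u).head = pc (d v).head := fun u v => by rw [hd u, hd v]
      have key : ∀ u v : ℕ, ((d u).head < (e u).head ↔ (d v).head < (e v).head) →
          (e u).head ≤ (e u).head → (d u).head < (d v).head → False := by
        intro u v huv _ hlt
        have b1 := (h2 u).abs_le
        have b2 := (h2 v).abs_le
        have c1 : (d u).head ≠ (e u).head := fun h => h3 u (by rw [h])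
        have c2 : (d v).head ≠ (e v).head := fun h => h3 v (by rw [h])
        by_cases hr : (d u).head < (e u).head
        · -- to the right: `e u = d u + 1 ≤ d v`
          have h6 : (e u).head ≤ (d v).head := by omega
          have h7 := hpc h6
          have h8 := hpc hr.le
          exact h3 u (le_antisymm h8 (h7.trans (m1 v u).le))
        · have hr' : ¬ (d v).head < (e v).head := fun h => hr (huv.2 h)
          -- to the left: `e v = d v - 1 ≥ d u`
          have h6 : (d u).head ≤ (e v).head := by omega
          have h7 := hpc h6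
          have h8 := hpc (not_lt.1 hr')
          exact h3 v (le_antisymm ((m1 v u).le.trans h7) h8)
      have heq : (d p).head = (d p').head := by
        rcases lt_trichotomy (d p).head (d p').head with h | h | h
        · exact (key p p' hdir le_rfl h).elim
        · exact h
        · exact (key p' p hdir.symm le_rfl h).elim
      by_cases hr : (d p).head < (e p).head
      · have hr' := hdir.1 hr
        omega
      · have hr' : ¬ (d p').head < (e p').head := fun h => hr (hdir.2 h)
        omega
    obtain ⟨j', hj'⟩ := ih e f (pc (e 0).head) h5 (fun p => by rw [(hhead p 0).1])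
    refine ⟨j', ?_⟩
    have s1 : M.Inside pc (mix pc j c) (mix pc j d) := by
      refine inside_mix (j := j) (h1 j) c d rfl rfl (hj j) ?_
      intro p hp z hz
      exact (h1 p).tape z (by rw [hz, hj p]; exact hp)
    have s2 : M.Next (mix pc j d) (mix pc j e) := by
      refine next_mix (hd j) (h2 j) ?_
      intro p hp z hz
      obtain ⟨_, _, _, h6⟩ := h2 p
      refine h6 z (fun h => ?_)
      rw [h, hd p] at hz
      exact hp hz.symm
    have s3 : mix pc j e = mix pc (pc (e 0).head) e := by
      ext z
      · simp only [mix]
        exact (hhead _ _).2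
      · simp only [mix]
        exact (hhead _ _).1
      · rfl
    have s4 : x = (decide ((mix pc j d).head < (mix pc j e).head), (mix pc j e).state) := h4 j
    rw [s4]
    refine s1.trace (.cross s2 ?_ ?_)
    · simp only [mix]
      exact h3 j
    · rw [s3]
      exact hj'

end Pool.Agent.Helper45.TY
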