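import Pool.Agent.Helper45.TY.Count

/-!
Time and space: a set accepted by one-tape machines with small time and space has numbers with
many representations.
-/

set_option autoImplicit false

open Finset Filter

namespace Pool.Agent.Helper45.TY

/-- **Time-space inequality, general values.** -/
theorem machine_val (q : ℕ) (hq : 2 ≤ q) (d : ℝ) (hd : 0 < d) : ∃ c : ℝ, 0 < c ∧
    ∀ (Q Γ : Type) [Fintype Q] (M : Machine Q Γ) (n T : ℕ) (enc : ℤ → Option (Fin q) → Γ)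
      (v : Fin n → Fin q → ℕ) (A : Set ℕ), 1 ≤ n → n ≤ T →
      (∀ w, M.Accepts (M.init enc w) → val v w ∈ A) →
      Set.InjOn (val v) {w | M.Accepts (M.init enc w)} →
      (q : ℝ) ^ (d * n) ≤ {w : Fin n → Fin q | M.AcceptsIn T (M.init enc w)}.ncard →
      ∃ N, Real.exp (c * n ^ 2 / (T * Real.log (Fintype.card Q + 1))) ≤ rep A N := by
  have hq0 : (0 : ℝ) < q := by positivity
  set a : ℝ := Real.log q with ha
  have ha0 : 0 < a := Real.log_pos (by exact_mod_cast hq)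
  set ℓ₀ : ℕ := ⌈16 / (d * a) ^ 2⌉₊ + 1 with hℓ₀
  set C : ℝ := 2 * (ℓ₀ + 1) + 8 / (d * a) with hC
  have hC0 : 0 < C := by positivity
  have hlog2 : 0 < Real.log 2 := Real.log_pos (by norm_num)
  have hlog2' : (1 : ℝ) / 2 < Real.log 2 := by
    have := Real.log_two_gt_d9
    linarith
  refine ⟨Real.log 2 * d / (6 * C), by positivity, ?_⟩
  intro Q Γ _ M n T enc v A hn hT hA hinj hcard
  have hn0 : (0 : ℝ) < n := by exact_mod_cast hn
  have hTn : (n : ℝ) ≤ T := by exact_mod_cast hT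
  have hT0 : (0 : ℝ) < T := hn0.trans_le hTn
  haveI : Nonempty Q := ⟨M.start⟩
  have hQ1 : (1 : ℝ) ≤ Fintype.card Q := by exact_mod_cast Fintype.card_pos
  set Λ : ℝ := Real.log (Fintype.card Q + 1) with hΛ
  have hΛ2 : Real.log 2 ≤ Λ := Real.log_le_log (by norm_num) (by linarith)
  have hΛ0 : 0 < Λ := hlog2.trans_le hΛ2
  have hne : {w : Fin n → Fin q | M.AcceptsIn T (M.init enc w)}.Nonempty := by
    rw [Set.nonempty_iff_ne_empty]
    intro h
    rw [h, Set.ncard_empty] at hcard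
    have : (0 : ℝ) < (q : ℝ) ^ (d * n) := by positivity
    push_cast at hcard
    linarith
  set ℓ : ℕ := max ℓ₀ ⌈8 * T * Λ / (d * n * a)⌉₊ with hℓ
  have hℓ1 : 1 ≤ ℓ := le_trans (by omega) (le_max_left _ _)
  have hℓ0 : (0 : ℝ) < ℓ := by exact_mod_cast hℓ1
  have hℓa : 16 / (d * a) ^ 2 ≤ ℓ := by
    have h1 : (16 : ℝ) / (d * a) ^ 2 ≤ ⌈16 / (d * a) ^ 2⌉₊ := Nat.le_ceil _
    have h2 : (⌈16 / (d * a) ^ 2⌉₊ : ℝ) ≤ (ℓ₀ : ℕ) := by
      exact_mod_cast (by omega : ⌈16 / (d * a) ^ 2⌉₊ ≤ ℓ₀)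
    have h3 : ((ℓ₀ : ℕ) : ℝ) ≤ ℓ := by exact_mod_cast le_max_left _ _
    linarith
  have hℓb : 8 * T * Λ / (d * n * a) ≤ ℓ := by
    have h1 : 8 * T * Λ / (d * n * a) ≤ ⌈8 * T * Λ / (d * n * a)⌉₊ := Nat.le_ceil _
    have h3 : ((⌈8 * T * Λ / (d * n * a)⌉₊ : ℕ) : ℝ) ≤ ℓ := Nat.cast_le.2 (le_max_right _ _)
    linarith
  have hTΛ : 1 / 2 ≤ T * Λ / n := by
    rw [le_div_iff₀ hn0]
    nlinarith
  have hℓc : (ℓ : ℝ) ≤ C * (T * Λ / n) := by
    have h1 : (ℓ : ℝ) ≤ ℓ₀ + (8 * T * Λ / (d * n * a) + 1) := by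
      have h2 : ((⌈8 * T * Λ / (d * n * a)⌉₊ : ℕ) : ℝ) ≤ 8 * T * Λ / (d * n * a) + 1 :=
        (Nat.ceil_lt_add_one (by positivity)).le
      have h3 : (ℓ : ℝ) ≤ (ℓ₀ : ℝ) + (⌈8 * T * Λ / (d * n * a)⌉₊ : ℕ) := by
        rw [← Nat.cast_add]
        exact Nat.cast_le.2 (max_le (Nat.le_add_right _ _) (Nat.le_add_left _ _))
      linarith
    have h4 : 8 * T * Λ / (d * n * a) = 8 / (d * a) * (T * Λ / n) := by
      field_simp
    have h5 : ((ℓ₀ : ℝ) + 1) ≤ 2 * (ℓ₀ + 1) * (T * Λ / n) := by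
      have : (0 : ℝ) < (ℓ₀ : ℝ) + 1 := by positivity
      nlinarith
    rw [h4] at h1
    rw [hC]
    linarith
  obtain ⟨j, N, h1, h2⟩ := count M (le_trans (by norm_num) hq) enc v A hA hinj hne hℓ1
  refine ⟨N, ?_⟩
  -- logarithms
  have h3 : d * n * a ≤ n / (2 * ℓ) * Real.log ℓ + T / ℓ * (2 * Λ) + 3 * ℓ * j * a := by
    have e1 : (q : ℝ) ^ (d * n) ≤ ((ℓ ^ (n / (2 * ℓ)) * (2 * Fintype.card Q + 1) ^ (T / ℓ) *
        q ^ (3 * ℓ * j) : ℕ) : ℝ) := hcard.trans (by exact_mod_cast h1)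
    have e2 := Real.log_le_log (by positivity) e1
    rw [Real.log_rpow hq0] at e2
    push_cast at e2
    rw [Real.log_mul (by positivity) (by positivity), Real.log_mul (by positivity) (by positivity),
      Real.log_pow, Real.log_pow, Real.log_pow] at e2
    have e3 : ((n / (2 * ℓ) : ℕ) : ℝ) * Real.log ℓ ≤ n / (2 * ℓ) * Real.log ℓ := by
      refine mul_le_mul_of_nonneg_right ?_ (Real.log_nonneg (by exact_mod_cast hℓ1))
      have := @Nat.cast_div_le ℝ _ _ _ n (2 * ℓ)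
      push_cast at this
      exact this
    have e4 : Real.log (2 * Fintype.card Q + 1) ≤ 2 * Λ := by
      rw [hΛ, ← Real.log_rpow (by positivity)]
      refine Real.log_le_log (by positivity) ?_
      rw [Real.rpow_two]
      nlinarith
    have e5 : ((T / ℓ : ℕ) : ℝ) * Real.log (2 * Fintype.card Q + 1) ≤ T / ℓ * (2 * Λ) := by
      refine mul_le_mul Nat.cast_div_le e4 (Real.log_nonneg (by linarith)) (by positivity)
    have e6 : ((3 * ℓ * j : ℕ) : ℝ) * a = 3 * ℓ * j * a := by push_cast; ring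
    rw [← ha] at e2
    linarith
  have h4 : n / (2 * ℓ) * Real.log ℓ ≤ d * n * a / 4 := by
    have e1 : Real.log ℓ ≤ 2 * Real.sqrt ℓ := by
      have e2 : Real.log ℓ = 2 * Real.log (Real.sqrt ℓ) := by
        rw [Real.log_sqrt hℓ0.le]
        ring
      have e3 := Real.log_le_sub_one_of_pos (Real.sqrt_pos.2 hℓ0)
      linarith
    have e4 : 4 / (d * a) ≤ Real.sqrt ℓ := by
      rw [Real.le_sqrt (by positivity) hℓ0.le]
      refine le_trans (le_of_eq ?_) hℓa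
      field_simp
      norm_num
    have e5 : Real.sqrt ℓ * Real.sqrt ℓ = ℓ := Real.mul_self_sqrt hℓ0.le
    have e6 : 0 < Real.sqrt ℓ := Real.sqrt_pos.2 hℓ0
    calc (n : ℝ) / (2 * ℓ) * Real.log ℓ ≤ n / (2 * ℓ) * (2 * Real.sqrt ℓ) :=
          mul_le_mul_of_nonneg_left e1 (by positivity)
      _ = n / Real.sqrt ℓ := by
          rw [div_mul_eq_mul_div, div_eq_div_iff (by positivity) e6.ne']
          linear_combination (2 * (n : ℝ)) * e5
      _ ≤ d * n * a / 4 := by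
          rw [div_le_iff₀ e6]
          have e7 : 4 ≤ Real.sqrt ℓ * (d * a) := by
            rwa [div_le_iff₀ (by positivity)] at e4
          nlinarith
  have h5 : T / ℓ * (2 * Λ) ≤ d * n * a / 4 := by
    rw [div_mul_eq_mul_div, div_le_iff₀ hℓ0]
    rw [div_le_iff₀ (by positivity)] at hℓb
    nlinarith
  have h6 : d * n / 2 ≤ 3 * ℓ * j := by
    have e1 : d * n / 2 * a ≤ 3 * ℓ * j * a := by nlinarith
    exact le_of_mul_le_mul_right e1 ha0
  have h7 : d * n ^ 2 / (6 * C * (T * Λ)) ≤ j := by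
    rw [div_le_iff₀ (by positivity)]
    have e1 : 3 * ℓ * (j : ℝ) ≤ 3 * (C * (T * Λ / n)) * j := by
      refine mul_le_mul_of_nonneg_right ?_ (by positivity)
      linarith
    have e2 : d * n / 2 * n ≤ 3 * (C * (T * Λ / n)) * j * n :=
      mul_le_mul_of_nonneg_right (h6.trans e1) hn0.le
    have e3 : 3 * (C * (T * Λ / n)) * j * n = 3 * C * (T * Λ) * j := by
      field_simp
    rw [e3] at e2
    nlinarith
  have h8 : Real.log 2 * d / (6 * C) * n ^ 2 / (T * Λ) ≤ j * Real.log 2 := by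
    have e1 : Real.log 2 * d / (6 * C) * n ^ 2 / (T * Λ) =
        d * n ^ 2 / (6 * C * (T * Λ)) * Real.log 2 := by
      field_simp
    rw [e1]
    exact mul_le_mul_of_nonneg_right h7 hlog2.le
  calc Real.exp (Real.log 2 * d / (6 * C) * n ^ 2 / (T * Λ)) ≤ Real.exp (j * Real.log 2) :=
        Real.exp_le_exp.2 h8
    _ = (2 : ℝ) ^ j := by
        rw [mul_comm, Real.exp_mul, Real.exp_log (by norm_num), Real.rpow_natCast]
    _ ≤ rep A N := by exact_mod_cast h2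

end Pool.Agent.Helper45.TY
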